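import Pool.Agent.W97.KE.Defs
import Pool.Agent.H901R3.MS.Defs

/-!
Statements of the independent parts.
-/

set_option autoImplicit false

open scoped Classical

namespace Pool.Agent.W97.KE

open Pool.Agent.W97.MT (prim IsGloballyMinimal affCount ap)
open Pool.Agent.W97.V20 (fE psi E4)
open Pool.Agent.H901R3.MS (Place)

/-! ### Galois group of `ℚ̄/ℚ` and the Selmer group as a module -/

/-- SIG: the cyclotomic characters -/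
def S_SIG : Prop := (∀ (N : ℕ), 1 ≤ N → ∀ u : (ZMod N)ˣ, ∃ h : GQ, IsSig N u h) ∧
  (∀ (N : ℕ), 1 ≤ N → ∀ h : GQ, ∃ u : (ZMod N)ˣ, IsSig N u h) ∧
  (∀ (N : ℕ), 1 ≤ N → ∀ (u v : (ZMod N)ˣ) (h g : GQ), IsSig N u h → IsSig N v g →
    (IsSig N (u * v) (h * g)) ∧ (IsSig N u⁻¹ h⁻¹) ∧
      (u = v ↔ ∀ z : Qb, z ^ N = 1 → (g⁻¹ * h) z = z)) ∧
  (∀ (N M : ℕ), 1 ≤ N → ∀ hd : M ∣ N, ∀ (u : (ZMod N)ˣ) (h : GQ), IsSig N u h →
    IsSig M (ZMod.unitsMap hd u) h)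

/-- SMOOTH: the classes are killed by powers of `p` and fixed by open subgroups -/
def S_SMOOTH : Prop := ∀ (W : WeierstrassCurve ℤ) (p m : ℕ), p.Prime → 1 ≤ m → ∀ a : Sel W p m,
  (∃ k : ℕ, p ^ k • a = 0) ∧ ∃ n : ℕ, FixedBy W p m a n

/-- INNER: `Gal(ℚ̄/K_{m,∞})` acts trivially on the Selmer group -/
def S_INNER : Prop := ∀ (W : WeierstrassCurve ℤ) (p m : ℕ) (h : GQ), h ∈ H p m →
  ∀ a : Sel W p m, selAct W p m h a = a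

/-- MOD: the action of `ℛ_m` -/
def S_MOD : Prop := S_SIG → ∀ (W : WeierstrassCurve ℤ) (p : ℕ) [Fact p.Prime] (m : ℕ), 1 ≤ m →
  (∀ a : Sel W p m, (∃ k : ℕ, p ^ k • a = 0) ∧ ∃ n : ℕ, FixedBy W p m a n) →
  (∀ h h' (a : Sel W p m), selAct W p m (h * h') a = selAct W p m h (selAct W p m h' a)) ∧
  (∀ a : Sel W p m, selAct W p m 1 a = a) ∧
  (∀ a : Sel W p m, smulSel W p m 1 a = a) ∧
  (∀ (r s : Rm p m) (a : Sel W p m),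
    smulSel W p m (r * s) a = smulSel W p m r (smulSel W p m s a)) ∧
  (∀ (r : Rm p m) (a b : Sel W p m),
    smulSel W p m r (a + b) = smulSel W p m r a + smulSel W p m r b) ∧
  (∀ (r s : Rm p m) (a : Sel W p m),
    smulSel W p m (r + s) a = smulSel W p m r a + smulSel W p m s a) ∧
  (∀ (r : Rm p m) (a : Sel W p m) (n k : ℕ), FixedBy W p m a n → p ^ k • a = 0 →
    smulSel W p m r a = ∑ᶠ u : (ZMod (m * p ^ (n + 1)))ˣ,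
      (((r.1 n).coeff u : ℤ_[p]).appr k) • selAct W p m (sig (m * p ^ (n + 1)) u)⁻¹ a)

/-- `x` is the group element `σ` of `ℛ_m` -/
def IsGrp (p : ℕ) [Fact p.Prime] (m : ℕ) (x : Rm p m) (σ : GQ) : Prop :=
  ∀ n : ℕ, ∃ u : (ZMod (m * p ^ (n + 1)))ˣ, IsSig (m * p ^ (n + 1)) u σ ∧
    x.1 n = MonoidAlgebra.single u 1

/-- GRP: group elements of `ℛ_m` and their action (given the formula of MOD) -/
def S_GRP : Prop := S_SIG → ∀ (p : ℕ) [Fact p.Prime] (m : ℕ), 1 ≤ m →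
  (∀ σ : GQ, ∃ x : Rm p m, IsGrp p m x σ) ∧
  ∀ (W : WeierstrassCurve ℤ),
    (∀ a : Sel W p m, (∃ k : ℕ, p ^ k • a = 0) ∧ ∃ n : ℕ, FixedBy W p m a n) →
    (∀ h h' (a : Sel W p m), selAct W p m (h * h') a = selAct W p m h (selAct W p m h' a)) →
    (∀ (r : Rm p m) (a : Sel W p m) (n k : ℕ), FixedBy W p m a n → p ^ k • a = 0 →
      smulSel W p m r a = ∑ᶠ u : (ZMod (m * p ^ (n + 1)))ˣ,
        (((r.1 n).coeff u : ℤ_[p]).appr k) • selAct W p m (sig (m * p ^ (n + 1)) u)⁻¹ a) →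
    (∀ (x : Rm p m) (σ : GQ), IsGrp p m x σ → ∀ a : Sel W p m,
      smulSel W p m x a = selAct W p m σ⁻¹ a) ∧
    -- a class killed by `p` and fixed by the whole group: only the augmentation modulo `p` matters
    (∀ (x : Rm p m) (a : Sel W p m), p • a = 0 → (∀ σ : GQ, selAct W p m σ a = a) →
      IsUnit (∑ᶠ u : (ZMod (m * p ^ (1 + 1)))ˣ, ((x.1 1).coeff u : ℤ_[p])) →
      smulSel W p m x a = 0 → a = 0)

/-- NU: `ν` maps `ℛ_{m'}` to `ℛ_m` -/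
def S_NU : Prop := ∀ (p : ℕ) [Fact p.Prime] (m' m : ℕ) (h : m' ∣ m), 1 ≤ m → ¬ p ∣ m →
  ∀ x : Rm p m', nuFun p h x.1 ∈ Rm p m

/-! ### Algebra -/

/-- ALG: ideals of minors over the ring `S` -/
def S_ALG : Prop := ∀ (S : Type) [CommRing S] (π T : S), π * π = 0 → π * T = 0 → T * T = 0 →
  π ≠ 0 → (∀ s, T ≠ s * π) → (∀ s : S, IsUnit s ∨ ∃ a b, s = a * π + b * T) →
  ∀ (n : ℕ) (N : Submodule S (Fin n → S)), (∀ v : Fin n → S, π • v ∈ N) →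
    (∀ v : Fin n → S, T • v ∈ N) →
    Ideal.span {d : S | ∃ A : Matrix (Fin n) (Fin n) S, (∀ i, A i ∈ N) ∧ d = A.det} ≠
      Ideal.span {π}

/-- FITT: annihilation and base change -/
def S_FITT : Prop := ∀ (R M : Type) [CommRing R] [AddCommGroup M] [Module R M] (I : Ideal R),
  IsFitt R M I → (∀ r ∈ I, ∀ x : M, r • x = 0) ∧
  ∀ (S : Type) [CommRing S] (ρ : R →+* S), Function.Surjective ρ → ∀ J : Ideal R,
    (∀ j ∈ J, ρ j = 0) → ∀ t : Set R,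
    (∀ r ∈ t, ∀ x : M, r • x ∈ (J • (⊤ : Submodule R M) : Submodule R M)) →
    ∃ (n : ℕ) (N : Submodule S (Fin n → S)), (∀ r ∈ t, ∀ v : Fin n → S, ρ r • v ∈ N) ∧
      Ideal.span {d : S | ∃ A : Matrix (Fin n) (Fin n) S, (∀ i, A i ∈ N) ∧ d = A.det} = I.map ρ

/-- DUAL: the annihilator of `A[J]` in the Pontryagin dual of `A` -/
def S_DUAL : Prop := ∀ (R A : Type) [CommRing R] [AddCommGroup A] [Module R A] (F : Finset R)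
  (f : CharacterModule A), (∀ a : A, (∀ j ∈ F, j • a = 0) → f a = 0) →
  f ∈ (Ideal.span (F : Set R) • (⊤ : Submodule R (CharacterModule A)) :
    Submodule R (CharacterModule A))

/-- the projection `(ℤ/lp²)ˣ → (ℤ/p²)ˣ` -/
noncomputable def prl (p l : ℕ) : (ZMod (l * p ^ (1 + 1)))ˣ →* (ZMod (1 * p ^ (1 + 1)))ˣ :=
  ZMod.unitsMap (Nat.mul_dvd_mul_right (one_dvd l) (p ^ (1 + 1)))

/-- REAL: the ring `S = (ℤ/p²)[T]/(pT, T²)` and the homomorphism `ρ : ℛ_l → S`,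
`σ_u ↦ 1 + λ(u) T` -/
def S_REAL : Prop := ∀ (p : ℕ) [Fact p.Prime] (l : ℕ), 1 ≤ l → ¬ p ∣ l →
  ∀ lam : (ZMod (1 * p ^ (1 + 1)))ˣ → ZMod p, (∀ u v, lam (u * v) = lam u + lam v) →
    (∃ u, lam u ≠ 0) →
    ∃ (S : Type) (_ : CommRing S) (π T : S) (ρ : Rm p l →+* S), Function.Surjective ρ ∧
      π * π = 0 ∧ π * T = 0 ∧ T * T = 0 ∧ π ≠ 0 ∧ (∀ s, T ≠ s * π) ∧
      (∀ s : S, IsUnit s ∨ ∃ a b, s = a * π + b * T) ∧ (p : S) = π ∧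
      ∀ x : Rm p l, ρ x =
        ((∑ᶠ u : (ZMod (l * p ^ (1 + 1)))ˣ,
          PadicInt.toZModPow 2 ((x.1 1).coeff u)).val : S) +
        ((∑ᶠ u : (ZMod (l * p ^ (1 + 1)))ˣ,
          lam (prl p l u) * PadicInt.toZMod ((x.1 1).coeff u)).val : S) * T

/-- LAM: the Fermat quotient -/
def S_LAM : Prop := ∀ (p : ℕ), p.Prime → p ≠ 2 → ∃ lam : (ZMod (1 * p ^ (1 + 1)))ˣ → ZMod p,
  (∀ u v, lam (u * v) = lam u + lam v) ∧
  (∀ u : (ZMod (1 * p ^ (1 + 1)))ˣ, lam u = 0 ↔ u ^ (p - 1) = 1) ∧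
  -- lifts of the elements of `(ℤ/p)ˣ`
  ∀ u : (ZMod (1 * p ^ (1 + 1)))ˣ, ∃ v : (ZMod (1 * p ^ (1 + 1)))ˣ, lam v = 0 ∧
    ∀ z : Qb, ∀ (g h : GQ), IsSig (1 * p ^ (1 + 1)) u g → IsSig (1 * p ^ (1 + 1)) v h →
      z ^ p = 1 → g z = h z

/-! ### Cocycles -/

/-- the inclusion `Gal(ℚ̄/K_{m,∞}) ≤ Gal(ℚ̄/K_{m',∞})` for `m' ∣ m` -/
theorem H_mono (p : ℕ) {m' m : ℕ} (h : m' ∣ m) : H p m ≤ H p m' := by
  intro g hg n z hz
  obtain ⟨d, rfl⟩ := h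
  refine hg n z ?_
  rw [show m' * d * p ^ (n + 1) = m' * p ^ (n + 1) * d by ring, pow_mul, hz, one_pow]

/-- the restriction of a cochain to `Gal(ℚ̄/K_{m,∞})` -/
def resc (W : WeierstrassCurve ℤ) (p : ℕ) {m' m : ℕ} (h : m' ∣ m) (c : H p m' → Pt W Qb) :
    H p m → Pt W Qb := fun g => c ⟨g.1, H_mono p h g.2⟩

/-- `E[p^∞](K_{m,∞}) = 0` -/
def NoTors (W : WeierstrassCurve ℤ) (p m : ℕ) : Prop :=
  ∀ P : Pt W Qb, p • P = 0 → (∀ g ∈ H p m, act W g P = P) → P = 0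

/-- EXT: an invariant class over `K_{l,∞}` comes from `K_{1,∞}` -/
def S_EXT : Prop := ∀ (W : WeierstrassCurve ℤ) (p l : ℕ), p.Prime → 1 ≤ l → NoTors W p l →
  ∀ c : H p l → Pt W Qb, IsCocycle W p l c →
    (∀ h ∈ H p 1, ∃ P : Pt W Qb, (∃ k : ℕ, p ^ k • P = 0) ∧
      ∀ g : H p l, cact W p l h c g - c g = act W g.1 P - P) →
    ∃ d : H p 1 → Pt W Qb, IsCocycle W p 1 d ∧ resc W p (one_dvd l) d = c

/-- INJ: the restriction map is injective -/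
def S_INJ : Prop := ∀ (W : WeierstrassCurve ℤ) (p l : ℕ), p.Prime → NoTors W p l →
  ∀ d : H p 1 → Pt W Qb, IsCocycle W p 1 d → ∀ P : Pt W Qb, (∃ k : ℕ, p ^ k • P = 0) →
    (∀ g : H p l, resc W p (one_dvd l) d g = act W g.1 P - P) → ∀ g, d g = act W g.1 P - P

/-- LOCRES: multiples of classes which become locally trivial over `K_{l,∞}` -/
def S_LOCRES : Prop := ∀ (W : WeierstrassCurve ℤ) (p l : ℕ), p.Prime → l.Prime →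
  ∀ (k Ω : Type) [Field k] [Field Ω] [Algebra k Ω] [CharZero Ω] [IsAlgClosed Ω],
  ∀ d : H p 1 → Pt W Qb, IsCocycle W p 1 d → LocTriv W p l k Ω (resc W p (one_dvd l) d) →
    ∀ N : ℕ, 0 < N → (∀ τ : Ω ≃ₐ[k] Ω, (∀ (n : ℕ) (z : Ω), z ^ p ^ (n + 1) = 1 → τ z = z) →
      ∀ z : Ω, z ^ l = 1 → (τ ^ N) z = z) → LocTriv W p 1 k Ω (N • d)

/-- BEZ: local triviality of a multiple prime to `p`, and of a multiple by `p · unit` -/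
def S_BEZ : Prop := ∀ (W : WeierstrassCurve ℤ) (p m : ℕ), p.Prime →
  ∀ (k Ω : Type) [Field k] [Field Ω] [Algebra k Ω],
  ∀ d : H p m → Pt W Qb, IsCocycle W p m d → ∀ N : ℕ, Nat.Coprime N p →
    LocTriv W p m k Ω (N • d) → LocTriv W p m k Ω d

/-- INF: the archimedean places -/
def S_INF : Prop := ∀ (W : WeierstrassCurve ℤ) (p m : ℕ), p.Prime → p ≠ 2 →
  ∀ d : H p m → Pt W Qb, IsCocycle W p m d → LocTriv W p m ℝ ℂ d

/-! ### Local Galois groups -/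

/-- ROOTS: the local Galois group acts on the roots of unity of order prime to `ℓ` by powers of
`ℓ` -/
def S_ROOTS : Prop := ∀ (ℓ : ℕ) [Fact ℓ.Prime]
  (τ : AlgebraicClosure ℚ_[ℓ] ≃ₐ[ℚ_[ℓ]] AlgebraicClosure ℚ_[ℓ]) (M : ℕ), 1 ≤ M →
  Nat.Coprime M ℓ → ∃ i : ℕ, ∀ z : AlgebraicClosure ℚ_[ℓ], z ^ M = 1 → τ z = z ^ ℓ ^ i

/-- EXPO: the decomposition groups in the subfield of degree `p` of `ℚ(μ_l)` -/
def S_EXPO : Prop := S_ROOTS → ∀ (p l : ℕ), p.Prime → l.Prime → p ∣ l - 1 → ∀ (ℓ : ℕ)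
  [Fact ℓ.Prime], ℓ ≠ l → (ℓ = p → (p : ZMod l) ^ ((l - 1) / p) = 1) →
  ∀ τ : AlgebraicClosure ℚ_[ℓ] ≃ₐ[ℚ_[ℓ]] AlgebraicClosure ℚ_[ℓ],
    (∀ (n : ℕ) (z : AlgebraicClosure ℚ_[ℓ]), z ^ p ^ (n + 1) = 1 → τ z = z) →
    ∀ z : AlgebraicClosure ℚ_[ℓ], z ^ l = 1 → (τ ^ ((l - 1) / p)) z = z

/-- PLACE: the place of an algebraic closure of `ℚ_ℓ` -/
def S_PLACE : Prop := ∀ (ℓ : ℕ) [Fact ℓ.Prime],
  ∃ v : Place (AlgebraicClosure ℚ_[ℓ]) (AlgebraicClosure (ZMod ℓ)),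
    ∀ τ : AlgebraicClosure ℚ_[ℓ] ≃ₐ[ℚ_[ℓ]] AlgebraicClosure ℚ_[ℓ],
    ∃ σ : AlgebraicClosure (ZMod ℓ) ≃+* AlgebraicClosure (ZMod ℓ),
      ∀ x, (τ x ∈ v.A ↔ x ∈ v.A) ∧ v.r (τ x) = σ (v.r x)

/-- RED: reduction of the points of `y² = x³ - 11x² - x` -/
def S_RED : Prop := ∀ (l : ℕ) [Fact l.Prime], 7 ≤ l →
  ∀ v : Place (AlgebraicClosure ℚ_[l]) (AlgebraicClosure (ZMod l)),
  ∃ red : Pt E4 (AlgebraicClosure ℚ_[l]) →+ Pt E4 (AlgebraicClosure (ZMod l)),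
    (∀ (τ : AlgebraicClosure ℚ_[l] ≃ₐ[ℚ_[l]] AlgebraicClosure ℚ_[l])
      (σ : AlgebraicClosure (ZMod l) ≃+* AlgebraicClosure (ZMod l)),
      (∀ x, (τ x ∈ v.A ↔ x ∈ v.A) ∧ v.r (τ x) = σ (v.r x)) → ∀ P,
        red (mapPt E4 (τ : AlgebraicClosure ℚ_[l] →+* AlgebraicClosure ℚ_[l]) P) =
          mapPt E4 (σ : AlgebraicClosure (ZMod l) →+* AlgebraicClosure (ZMod l)) (red P)) ∧
    ∀ p : ℕ, p.Prime → p ≠ l → ∀ P, p • P = 0 → red P = 0 → P = 0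

/-- FBAR: points over the algebraic closure of a finite field -/
def S_FBAR : Prop := ∀ (W : WeierstrassCurve ℤ) (p l : ℕ) [Fact l.Prime], p.Prime → p ≠ l →
  p ∣ l - 1 → ¬ p ^ 2 ∣ l - 1 →
  (∀ P : Pt W (AlgebraicClosure (ZMod l)), p • P = 0 →
    mapPt W (frobenius (AlgebraicClosure (ZMod l)) l) P = P) →
  -- every point is the sum of a point of order a power of `p` and a point of order prime to `p`
  (∀ P : Pt W (AlgebraicClosure (ZMod l)), ∃ Q R : Pt W (AlgebraicClosure (ZMod l)),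
    P = Q + R ∧ (∃ k : ℕ, p ^ k • Q = 0) ∧ ∃ N : ℕ, Nat.Coprime N p ∧ N • R = 0) ∧
  -- automorphisms fixing the roots of unity of `p`-power order fix the points of `p`-power order
  ∀ σ : AlgebraicClosure (ZMod l) ≃+* AlgebraicClosure (ZMod l),
    (∀ (n : ℕ) (z : AlgebraicClosure (ZMod l)), z ^ p ^ (n + 1) = 1 → σ z = z) →
    ∀ P : Pt W (AlgebraicClosure (ZMod l)), (∃ k : ℕ, p ^ k • P = 0) →
      mapPt W (σ : AlgebraicClosure (ZMod l) →+* AlgebraicClosure (ZMod l)) P = P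

/-- LTOR: the local Galois group at `l` and the points of `p`-power order -/
def S_LTOR : Prop := S_PLACE → S_RED → S_FBAR → ∀ (p l : ℕ) [Fact l.Prime], p.Prime → p ≠ l →
  7 ≤ l → p ∣ l - 1 → ¬ p ^ 2 ∣ l - 1 →
  (∀ P : Pt E4 (AlgebraicClosure (ZMod l)), p • P = 0 →
    mapPt E4 (frobenius (AlgebraicClosure (ZMod l)) l) P = P) →
  (∀ (τ : AlgebraicClosure ℚ_[l] ≃ₐ[ℚ_[l]] AlgebraicClosure ℚ_[l])
    (P : Pt E4 (AlgebraicClosure ℚ_[l])), p • P = 0 →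
      mapPt E4 (τ : AlgebraicClosure ℚ_[l] →+* AlgebraicClosure ℚ_[l]) P = P) ∧
  ∀ τ : AlgebraicClosure ℚ_[l] ≃ₐ[ℚ_[l]] AlgebraicClosure ℚ_[l],
    (∀ (n : ℕ) (z : AlgebraicClosure ℚ_[l]), z ^ p ^ (n + 1) = 1 → τ z = z) →
    ∀ (P : Pt E4 (AlgebraicClosure ℚ_[l])) (k : ℕ),
      p ^ k • (mapPt E4 (τ : AlgebraicClosure ℚ_[l] →+* AlgebraicClosure ℚ_[l]) P - P) = 0 →
      mapPt E4 (τ : AlgebraicClosure ℚ_[l] →+* AlgebraicClosure ℚ_[l]) P = P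

/-- `g` and `τ` act in the same way on the roots of unity of `p`-power order -/
def SameCyc (p : ℕ) {k Ω : Type} [Field k] [Field Ω] [Algebra k Ω] (g : GQ) (τ : Ω ≃ₐ[k] Ω) :
    Prop :=
  ∀ n : ℕ, ∃ u : ℕ, (∀ z : Qb, z ^ p ^ (n + 1) = 1 → g z = z ^ u) ∧
    ∀ z : Ω, z ^ p ^ (n + 1) = 1 → τ z = z ^ u

/-- LOCL: the local condition at `l` -/
def S_LOCL : Prop := ∀ (W : WeierstrassCurve ℤ) (p l : ℕ) [Fact l.Prime], p.Prime → p ≠ l →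
  p ∣ l - 1 → ¬ p ^ 2 ∣ l - 1 →
  (∀ (τ : AlgebraicClosure ℚ_[l] ≃ₐ[ℚ_[l]] AlgebraicClosure ℚ_[l])
    (P : Pt W (AlgebraicClosure ℚ_[l])), p • P = 0 →
      mapPt W (τ : AlgebraicClosure ℚ_[l] →+* AlgebraicClosure ℚ_[l]) P = P) →
  (∀ τ : AlgebraicClosure ℚ_[l] ≃ₐ[ℚ_[l]] AlgebraicClosure ℚ_[l],
    (∀ (n : ℕ) (z : AlgebraicClosure ℚ_[l]), z ^ p ^ (n + 1) = 1 → τ z = z) →
    ∀ (P : Pt W (AlgebraicClosure ℚ_[l])) (k : ℕ),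
      p ^ k • (mapPt W (τ : AlgebraicClosure ℚ_[l] →+* AlgebraicClosure ℚ_[l]) P - P) = 0 →
      mapPt W (τ : AlgebraicClosure ℚ_[l] →+* AlgebraicClosure ℚ_[l]) P = P) →
  ∀ d : H p 1 → Pt W Qb, IsCocycle W p 1 d →
    LocTriv W p l ℚ_[l] (AlgebraicClosure ℚ_[l]) (resc W p (one_dvd l) d) →
    ∀ (g : GQ) (τ : AlgebraicClosure ℚ_[l] ≃ₐ[ℚ_[l]] AlgebraicClosure ℚ_[l]), SameCyc p g τ →
      LocTriv W p 1 ℚ_[l] (AlgebraicClosure ℚ_[l]) (cact W p 1 g d - d)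

/-- FROB: a global element with the same action as a local element at `l`, non-trivial on `μ_{p²}` -/
def S_FROB : Prop := ∀ (p l : ℕ) [Fact l.Prime], p.Prime → p ≠ l → p ∣ l - 1 → ¬ p ^ 2 ∣ l - 1 →
  ∃ (g : GQ) (τ : AlgebraicClosure ℚ_[l] ≃ₐ[ℚ_[l]] AlgebraicClosure ℚ_[l]), SameCyc p g τ ∧
    (∀ z : Qb, z ^ p = 1 → g z = z) ∧ ∃ z : Qb, z ^ p ^ 2 = 1 ∧ g z ≠ z

/-- GEN: topological generators of `Gal(ℚ(μ_{p^∞})/ℚ)`: a subgroup containing `Gal(ℚ̄/K_{1,n})`, an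
element `g` as in FROB and lifts of all the elements of `(ℤ/p)ˣ` is everything -/
def S_GEN : Prop := S_SIG → ∀ (p : ℕ), p.Prime → p ≠ 2 → ∀ g : GQ, (∀ z : Qb, z ^ p = 1 → g z = z) →
  (∃ z : Qb, z ^ p ^ 2 = 1 ∧ g z ≠ z) → ∀ (G : Subgroup GQ) (n : ℕ),
    (∀ h : GQ, (∀ z : Qb, z ^ p ^ (n + 1) = 1 → h z = z) → h ∈ G) → g ∈ G →
    (∀ h : GQ, ∃ h' ∈ G, ∀ z : Qb, z ^ p = 1 → h z = h' z) → ∀ h : GQ, h ∈ G

/-! ### The curve `y² = x³ - 11x² - x` at `p = 7`, `l = 98911` -/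

/-- the coefficients of the `7`-division polynomial -/
def cf7 : List ℤ := [-1, 0, -196, -12936, -405258, -6444592, -49438900, -132181192, 121441593,
  -47688256, -13455624, -216739600, -1262670444, -4233696544, -5536734472, 3193283632,
  -686742175, 80124352, -5671988, 216216, -84266, -74800, 13244, -616, 7]

/-- the `7`-division polynomial of `y² = x³ - 11x² - x` -/
noncomputable def Psi7 : Polynomial ℤ :=
  ∑ i ∈ Finset.range 25, Polynomial.C (cf7.getD i 0) * Polynomial.X ^ i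

/-- PSI: the points of order `7` -/
def S_PSI : Prop := ∀ (F : Type) [Field F], (2 : F) ≠ 0 → (3 : F) ≠ 0 → (5 : F) ≠ 0 →
  (7 : F) ≠ 0 → ∀ (x y : F)
  (h : (E4.baseChange F).toAffine.Nonsingular x y),
    7 • (WeierstrassCurve.Affine.Point.some x y h : Pt E4 F) = 0 ↔
      (Psi7.map (Int.castRingHom F)).eval x = 0

/-- IRR: the `7`-division polynomial is irreducible -/
def S_IRR : Prop := Irreducible (Psi7.map (Int.castRingHom ℚ))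

/-- RE: real roots -/
def S_RE : Prop := ∃ x₀ x₁ : ℝ, (Psi7.map (Int.castRingHom ℝ)).eval x₀ = 0 ∧
  (Psi7.map (Int.castRingHom ℝ)).eval x₁ = 0 ∧ 0 < x₀ ^ 3 - 11 * x₀ ^ 2 - x₀ ∧
  x₁ ^ 3 - 11 * x₁ ^ 2 - x₁ < 0

/-- IRT: `E[7]` is irreducible and has no points over `K_{m,∞}` -/
def S_IRT : Prop := S_PSI → S_IRR → S_RE → IrredTors E4 7 ∧ ∀ m : ℕ, 1 ≤ m → NoTors E4 7 m

/-- SPLIT: the points of order `7` in characteristic `98911` -/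
def S_SPLIT : Prop := ∀ [Fact (Nat.Prime 98911)], ∀ x : AlgebraicClosure (ZMod 98911),
  (Psi7.map (Int.castRingHom (AlgebraicClosure (ZMod 98911)))).eval x = 0 →
  ∃ x' y' : ZMod 98911, x = algebraMap _ _ x' ∧ y' ^ 2 = x' ^ 3 - 11 * x' ^ 2 - x'

/-- TOR: consequences for the points -/
def S_TOR : Prop := S_PSI → S_SPLIT → (∀ [Fact (Nat.Prime 98911)],
  ∀ P : Pt E4 (AlgebraicClosure (ZMod 98911)), 7 • P = 0 →
    mapPt E4 (frobenius (AlgebraicClosure (ZMod 98911)) 98911) P = P) ∧ 7 ∣ affCount E4 98911 + 1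

/-- NUM: numerical facts -/
def S_NUM : Prop := IsGloballyMinimal E4 ∧ E4.Δ = 2000 ∧ ap E4 7 = 2 ∧ affCount E4 7 = 5 ∧
  Nat.Prime 98911 ∧ ((7 : ℕ) : ZMod 98911) ^ ((98911 - 1) / 7) = 1

/-- ANA: the modular symbols of `E` -/
def S_ANA : Prop := ∀ S : Symb E4, S.minus 0 = 0 ∧ S.plus 0 ≠ 0 ∧ padicValRat 7 (S.plus 0) = 0 ∧
  (∀ r, S.plus (r + 1) = S.plus r ∧ S.minus (r + 1) = S.minus r) ∧
  ∀ q : ℕ, q.Prime → q ≠ 2 → q ≠ 5 → ∀ r : ℚ,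
    ap E4 q * S.plus r = S.plus (q * r) + ∑ u ∈ Finset.range q, S.plus ((r + u) / q) ∧
    ap E4 q * S.minus r = S.minus (q * r) + ∑ u ∈ Finset.range q, S.minus ((r + u) / q)

/-! ### The elements `ϑ` -/

/-- the Hecke relation for modular symbols at `q` -/
def HeckeRel {W : WeierstrassCurve ℤ} (S : Symb W) (q : ℕ) : Prop := ∀ r : ℚ,
    ap W q * S.plus r = S.plus (q * r) + ∑ u ∈ Finset.range q, S.plus ((r + u) / q) ∧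
    ap W q * S.minus r = S.minus (q * r) + ∑ u ∈ Finset.range q, S.minus ((r + u) / q)

/-- PROJ: the projection of `ϑ_l` to `ℛ_1` -/
def S_PROJ : Prop := ∀ (W : WeierstrassCurve ℤ) (S : Symb W) (p : ℕ) [Fact p.Prime] (l : ℕ),
  l.Prime → l ≠ p → (∀ r, S.plus (r + 1) = S.plus r ∧ S.minus (r + 1) = S.minus r) →
  HeckeRel S l → ∀ α : ℤ_[p], ∀ (x : Rm p l) (y : Rm p 1), IsTheta S α l x → IsTheta S α 1 y →
  ∀ c : (ZMod (1 * p ^ (1 + 1)))ˣ, (c : ZMod (1 * p ^ (1 + 1))) = (l : ℕ) →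
  ∀ b : (ZMod (1 * p ^ (1 + 1)))ˣ,
    ∑ᶠ u : {u : (ZMod (l * p ^ (1 + 1)))ˣ // prl p l u = b}, ((x.1 1).coeff u.1 : ℤ_[p]) =
      ap W l * (y.1 1).coeff b - (y.1 1).coeff (c * b) - (y.1 1).coeff (c⁻¹ * b)

/-- AUG: the augmentation of `ϑ_1` -/
def S_AUG : Prop := ∀ (W : WeierstrassCurve ℤ) (S : Symb W) (p : ℕ) [Fact p.Prime],
  (∀ r, S.plus (r + 1) = S.plus r ∧ S.minus (r + 1) = S.minus r) → HeckeRel S p →
  ∀ α : ℤ_[p], α ^ 2 - ap W p * α + p = 0 → IsUnit α → ¬ (p : ℤ) ∣ ap W p - 1 →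
  S.plus 0 + S.minus 0 ≠ 0 → padicValRat p (S.plus 0 + S.minus 0) = 0 →
  ∀ y : Rm p 1, IsTheta S α 1 y →
    IsUnit (∑ᶠ u : (ZMod (1 * p ^ (1 + 1)))ˣ, ((y.1 1).coeff u : ℤ_[p]))

/-- AB: the functionals `A` and `B` (augmentation and derivative) -/
def S_AB : Prop := ∀ (p : ℕ) [Fact p.Prime] (l : ℕ), l.Prime → p ∣ l - 1 → p ≠ l →
  ∀ lam : (ZMod (1 * p ^ (1 + 1)))ˣ → ZMod p, (∀ u v, lam (u * v) = lam u + lam v) →
  -- `ν`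
  (∀ (y : ∀ n, Rn p 1 n), ∑ᶠ u : (ZMod (l * p ^ (1 + 1)))ˣ,
      (((nuFun p (one_dvd l) y) 1).coeff u : ℤ_[p]) =
        (l - 1 : ℕ) * ∑ᶠ u : (ZMod (1 * p ^ (1 + 1)))ˣ, ((y 1).coeff u : ℤ_[p])) ∧
  (∀ (y : ∀ n, Rn p 1 n), ∑ᶠ u : (ZMod (l * p ^ (1 + 1)))ˣ,
      lam (prl p l u) * PadicInt.toZMod (((nuFun p (one_dvd l) y) 1).coeff u) = 0) ∧
  -- an element with the projection `a - σ_c - σ_c⁻¹` times `y`
  ∀ (x : Rm p l) (y : Rm p 1) (a : ℤ) (c : (ZMod (1 * p ^ (1 + 1)))ˣ), (p : ℤ) ∣ a - 2 →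
    (∀ b : (ZMod (1 * p ^ (1 + 1)))ˣ,
      ∑ᶠ u : {u : (ZMod (l * p ^ (1 + 1)))ˣ // prl p l u = b}, ((x.1 1).coeff u.1 : ℤ_[p]) =
        a * (y.1 1).coeff b - (y.1 1).coeff (c * b) - (y.1 1).coeff (c⁻¹ * b)) →
    (∃ z : ℤ_[p], ∑ᶠ u : (ZMod (l * p ^ (1 + 1)))ˣ, ((x.1 1).coeff u : ℤ_[p]) = p * z) ∧
    ∑ᶠ u : (ZMod (l * p ^ (1 + 1)))ˣ,
      lam (prl p l u) * PadicInt.toZMod ((x.1 1).coeff u) = 0

end Pool.Agent.W97.KE
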