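import Pool.Agent.W97.V20.Fin
import Pool.Agent.W97.KE.Stm

/-!
The modular symbols of `y² = x³ - 11x² - x`.
-/

set_option autoImplicit false

open UpperHalfPlane MeasureTheory
open scoped Classical

namespace Pool.Agent.W97.KE

open Pool.Agent.W97.MT (prim IsGloballyMinimal affCount ap qq)
open Pool.Agent.W97.V20 (fE psi E4 an anPow A A_one A_zero A_eq hmult hecke_f20 f20 f20_of hasSum_A
  qq_pow_eq J J_add_two prim_f20 int_f20 J0 J0_pos J_zero hhint omega_eq hcp5 hqe hsubst homega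
  dvd_20 f20_apply)

lemma disc4 : E4.Δ = 2000 := by
  simp only [E4, WeierstrassCurve.Δ, WeierstrassCurve.b₂, WeierstrassCurve.b₄, WeierstrassCurve.b₆,
    WeierstrassCurve.b₈]
  norm_num

lemma dvd_disc4 {p : ℕ} (hp : p.Prime) : (p : ℤ) ∣ E4.Δ ↔ p = 2 ∨ p = 5 := by
  rw [disc4]
  constructor
  · intro h
    have h1 : p ∣ 2 ^ 4 * 5 ^ 3 := by
      have : (p : ℤ) ∣ ((2000 : ℕ) : ℤ) := by exact_mod_cast h
      have := Int.natCast_dvd_natCast.1 this
      norm_num
      exact this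
    rcases (Nat.Prime.dvd_mul hp).1 h1 with h | h
    · left
      exact (Nat.prime_dvd_prime_iff_eq hp Nat.prime_two).1 (hp.dvd_of_dvd_pow h)
    · right
      exact (Nat.prime_dvd_prime_iff_eq hp (by norm_num)).1 (hp.dvd_of_dvd_pow h)
  · rintro (rfl | rfl) <;> norm_num

theorem an_eq4 (n : ℕ) : an E4 n = A n := by
  by_cases hn : n = 0
  · subst hn
    rw [A_zero]
    unfold an
    rw [if_pos rfl]
  refine hmult E4 A A_one (fun p hp => A_eq hp) ?_ n (Nat.pos_of_ne_zero hn)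
  intro p hp n hn
  have h1 := (hecke_f20 hp).2 n
  have h2 := dvd_disc4 hp
  by_cases hd : (p : ℤ) ∣ E4.Δ
  · have h20 : p ∣ 20 := by
      rcases h2.1 hd with h | h
      · rw [h]; norm_num
      · rw [h]; norm_num
    rw [if_pos hd]
    rw [if_pos h20] at h1
    push_cast
    exact h1
  · have h20 : ¬ p ∣ 20 := dvd_20 hp (fun h => hd (h2.2 (Or.inl h))) (fun h => hd (h2.2 (Or.inr h)))
    rw [if_neg hd]
    rw [if_neg h20] at h1
    exact h1

theorem fE_eq4 {z : ℂ} (hz : 0 < z.im) : fE E4 (ofComplex z) = f20 (ofComplex z) := by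
  have h1 := hasSum_A hz
  simp only [qq_pow_eq] at h1
  rw [f20_of hz]
  unfold fE
  rw [ofComplex_apply_of_im_pos hz]
  have h2 : (fun n : ℕ => ((an E4 n : ℤ) : ℂ) * Complex.exp (2 * Real.pi * Complex.I * n * z)) =
      fun n : ℕ => ((A n : ℤ) : ℂ) * Complex.exp (2 * Real.pi * Complex.I * n * z) := by
    ext n
    rw [an_eq4]
  change (∑' n : ℕ, ((an E4 n : ℤ) : ℂ) * Complex.exp (2 * Real.pi * Complex.I * n * z)) = _
  rw [h2]
  exact h1.tsum_eq

lemma prim4' (r : ℚ) : prim (fE E4) (r : ℂ) = prim f20 (r : ℂ) := by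
  unfold prim
  congr 1
  refine setIntegral_congr_fun measurableSet_Ioi fun t ht => ?_
  have ht' : 0 < t := ht
  have him : 0 < ((r : ℂ) + t * Complex.I).im := by simpa using ht'
  exact fE_eq4 him

lemma prim4 (r : ℚ) : prim (fE E4) (r : ℂ) = J (2 * r) := by
  rw [prim4', prim_f20]

lemma J0_eq : J0 = ∫ s in Set.Ioi (0 : ℝ), (Real.sqrt (s ^ 4 + 22 * s ^ 2 + 125))⁻¹ := by
  have h1 := omega_eq hcp5 hqe hsubst homega
  rw [homega.2] at h1
  have h2 : (2 / Real.sqrt 13 : ℝ) ≠ 0 := by positivity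
  exact (mul_left_cancel₀ h2 h1).symm

theorem s_ana (ho : Omp E4 = 2 * ∫ s in Set.Ioi (0 : ℝ),
    (Real.sqrt (s ^ 4 + 22 * s ^ 2 + 125))⁻¹) (hm : 0 < Omm E4) : S_ANA := by
  intro S
  have hO : Omp E4 = 2 * J0 := by rw [ho, J0_eq]
  have hOpos : 0 < Omp E4 := by rw [hO]; have := J0_pos; positivity
  have hre : ∀ r : ℚ, (prim f20 (r : ℂ)).re = S.plus r * Omp E4 := by
    intro r
    have h1 := S.eq r
    rw [prim4'] at h1
    rw [h1]
    simp
  have him : ∀ r : ℚ, (prim f20 (r : ℂ)).im = S.minus r * Omm E4 := by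
    intro r
    have h1 := S.eq r
    rw [prim4'] at h1
    rw [h1]
    simp
  have hinjp : ∀ a b : ℚ, (a : ℝ) * Omp E4 = b * Omp E4 → a = b := by
    intro a b h
    exact_mod_cast mul_right_cancel₀ hOpos.ne' h
  have hinjm : ∀ a b : ℚ, (a : ℝ) * Omm E4 = b * Omm E4 → a = b := by
    intro a b h
    exact_mod_cast mul_right_cancel₀ hm.ne' h
  have h0 : prim f20 ((0 : ℚ) : ℂ) = (J0 : ℂ) := by
    rw [prim_f20, mul_zero, J_zero]
    rfl
  have hp0 : S.plus 0 = 1 / 2 := by
    apply hinjp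
    rw [← hre 0, h0, Complex.ofReal_re, hO]
    push_cast
    ring
  have hm0 : S.minus 0 = 0 := by
    apply hinjm
    rw [← him 0, h0, Complex.ofReal_im]
    simp
  have hper : ∀ r : ℚ, prim f20 ((r + 1 : ℚ) : ℂ) = prim f20 (r : ℂ) := by
    intro r
    rw [prim_f20, prim_f20, mul_add, mul_one, J_add_two]
  refine ⟨hm0, by rw [hp0]; norm_num, ?_, fun r => ⟨?_, ?_⟩, ?_⟩
  · rw [hp0]
    have h7 : Fact (Nat.Prime 7) := ⟨by norm_num⟩
    rw [padicValRat.div (by norm_num) (by norm_num)]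
    have h1 : padicValRat 7 ((1 : ℕ) : ℚ) = 0 := by
      rw [padicValRat.of_nat]; simp
    have h2 : padicValRat 7 ((2 : ℕ) : ℚ) = 0 := by
      rw [padicValRat.of_nat, padicValNat.eq_zero_of_not_dvd (by norm_num)]; rfl
    push_cast at h1 h2
    rw [h1, h2, sub_zero]
  · apply hinjp
    rw [← hre, ← hre, hper]
  · apply hinjm
    rw [← him, ← him, hper]
  · intro q hq h2 h5 r
    have hd : ¬ q ∣ 20 := dvd_20 hq h2 h5
    have h1 := hhint 20 q f20 (A q : ℂ) hq int_f20 (hecke_f20 hq).1 r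
    rw [if_neg hd, A_eq hq] at h1
    constructor
    · apply hinjp
      have h3 := congrArg Complex.re h1
      rw [Complex.add_re, Complex.re_sum] at h3
      simp only [hre] at h3
      have h4 : ((ap E4 q : ℂ) * prim f20 (r : ℂ)).re = (ap E4 q : ℝ) * (S.plus r * Omp E4) := by
        rw [Complex.mul_re, hre]
        simp
      rw [h4] at h3
      push_cast
      rw [add_mul, Finset.sum_mul]
      linarith
    · apply hinjm
      have h3 := congrArg Complex.im h1
      rw [Complex.add_im, Complex.im_sum] at h3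
      simp only [him] at h3
      have h4 : ((ap E4 q : ℂ) * prim f20 (r : ℂ)).im = (ap E4 q : ℝ) * (S.minus r * Omm E4) := by
        rw [Complex.mul_im, him]
        simp
      rw [h4] at h3
      push_cast
      rw [add_mul, Finset.sum_mul]
      linarith

end Pool.Agent.W97.KE
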