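import Pool.Agent.W97.KE.Stm

/-!
The invariant classes of `Sel(E/K_{l,∞})` killed by the ideal `(p², p(g-1), (g-1)², δ-1)` are killed
by `p` and `g - 1`.
-/

set_option autoImplicit false

open scoped Classical

namespace Pool.Agent.W97.KE

section
variable (W : WeierstrassCurve ℤ) (p : ℕ)

/-- the class of a Selmer cocycle -/
noncomputable def cls {m : ℕ} (c : H p m → Pt W Qb) (hc : c ∈ ZSel W p m) : Sel W p m :=
  QuotientAddGroup.mk ⟨c, hc⟩

variable {W p}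

theorem cls_eq_zero {m : ℕ} {c : H p m → Pt W Qb} (hc : c ∈ ZSel W p m) :
    cls W p c hc = 0 ↔ c ∈ BSel W p m := by
  unfold cls
  rw [QuotientAddGroup.eq_zero_iff, AddSubgroup.mem_addSubgroupOf]

theorem cls_add {m : ℕ} {c d : H p m → Pt W Qb} (hc : c ∈ ZSel W p m) (hd : d ∈ ZSel W p m) :
    cls W p c hc + cls W p d hd = cls W p (c + d) ((ZSel W p m).add_mem hc hd) := rfl

theorem cls_sub {m : ℕ} {c d : H p m → Pt W Qb} (hc : c ∈ ZSel W p m) (hd : d ∈ ZSel W p m) :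
    cls W p c hc - cls W p d hd = cls W p (c - d) ((ZSel W p m).sub_mem hc hd) := rfl

theorem cls_nsmul {m : ℕ} {c : H p m → Pt W Qb} (hc : c ∈ ZSel W p m) (k : ℕ) :
    k • cls W p c hc = cls W p (k • c) ((ZSel W p m).nsmul_mem hc k) := rfl

theorem selAct_cls {m : ℕ} {c : H p m → Pt W Qb} (hc : c ∈ ZSel W p m) (h : GQ) :
    selAct W p m h (cls W p c hc) = cls W p (cact W p m h c) (cact_mem_ZSel W p m h hc) := rfl

theorem exists_cls {m : ℕ} (a : Sel W p m) : ∃ (c : H p m → Pt W Qb) (hc : c ∈ ZSel W p m),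
    a = cls W p c hc := by
  obtain ⟨⟨c, hc⟩, rfl⟩ := QuotientAddGroup.mk_surjective a
  exact ⟨c, hc, rfl⟩

theorem selAct_mul' {m : ℕ} (h h' : GQ) (a : Sel W p m) :
    selAct W p m (h * h') a = selAct W p m h (selAct W p m h' a) := by
  obtain ⟨c, hc, rfl⟩ := exists_cls a
  rw [selAct_cls, selAct_cls, selAct_cls]
  congr 1
  exact cact_mul W p m h h' c

theorem selAct_one' {m : ℕ} (a : Sel W p m) : selAct W p m 1 a = a := by
  obtain ⟨c, hc, rfl⟩ := exists_cls a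
  rw [selAct_cls]
  congr 1
  exact cact_one W p m c

theorem resc_cact {l : ℕ} (h : GQ) (d : H p 1 → Pt W Qb) :
    resc W p (one_dvd l) (cact W p 1 h d) = cact W p l h (resc W p (one_dvd l) d) := rfl

theorem comm_mem (hs : S_SIG) {m : ℕ} (hm : 1 ≤ m) (hp : 0 < p) (h h' : GQ) :
    (h' * h)⁻¹ * (h * h') ∈ H p m := by
  intro n z hz
  have hN : 1 ≤ m * p ^ (n + 1) := Nat.mul_pos hm (pow_pos hp _)
  obtain ⟨u, hu⟩ := hs.2.1 _ hN h
  obtain ⟨v, hv⟩ := hs.2.1 _ hN h'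
  have h1 := (hs.2.2.1 _ hN u v h h' hu hv).1
  have h2 := (hs.2.2.1 _ hN v u h' h hv hu).1
  exact ((hs.2.2.1 _ hN _ _ _ _ h1 h2).2.2.1 (mul_comm u v)) z hz

theorem selAct_comm (hs : S_SIG) (hin : S_INNER) {m : ℕ} (hm : 1 ≤ m) (hp : 0 < p) (h h' : GQ)
    (a : Sel W p m) : selAct W p m h (selAct W p m h' a) = selAct W p m h' (selAct W p m h a) := by
  rw [← selAct_mul', ← selAct_mul']
  have h1 : h * h' = (h' * h) * ((h' * h)⁻¹ * (h * h')) := by group
  rw [h1, selAct_mul', hin W p m _ (comm_mem hs hm hp h h')]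

end

theorem root_pow {k Ω : Type} [Field k] [Field Ω] [Algebra k Ω] {l : ℕ} (hl : l.Prime)
    (τ : Ω ≃ₐ[k] Ω) {z : Ω} (hz : z ^ l = 1) : (τ ^ (l - 1)) z = z := by
  by_cases hz1 : z = 1
  · rw [hz1, map_one]
  have : Fact l.Prime := ⟨hl⟩
  have ho : orderOf z = l := orderOf_eq_prime hz hz1
  have hprim : IsPrimitiveRoot z l := by
    have := IsPrimitiveRoot.orderOf z
    rwa [ho] at this
  have : NeZero l := ⟨hl.ne_zero⟩
  obtain ⟨i, -, hi⟩ := hprim.eq_pow_of_pow_eq_one (ξ := τ z) (by rw [← map_pow, hz, map_one])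
  have hit : ∀ n : ℕ, (τ ^ n) z = z ^ i ^ n := by
    intro n
    induction n with
    | zero => simp
    | succ n ih => rw [pow_succ, AlgEquiv.mul_apply, ← hi, map_pow, ih, ← pow_mul, ← pow_succ]
  have hi0 : (i : ZMod l) ≠ 0 := by
    intro h
    rw [ZMod.natCast_eq_zero_iff] at h
    have h1 : z ^ i = 1 := by
      obtain ⟨j, rfl⟩ := h
      rw [pow_mul, hz, one_pow]
    rw [hi] at h1
    exact hz1 (τ.injective (by rw [h1, map_one]))
  have hmod : i ^ (l - 1) ≡ 1 [MOD l] := by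
    rw [← ZMod.natCast_eq_natCast_iff]
    push_cast
    exact ZMod.pow_card_sub_one_eq_one hi0
  have hmod' : i ^ (l - 1) % orderOf z = 1 % orderOf z := by rw [ho]; exact hmod
  rw [hit, ← pow_mod_orderOf, hmod', pow_mod_orderOf, pow_one]

/-- the local conditions -/
theorem descend (hext : S_EXT) (hlr : S_LOCRES) (hbez : S_BEZ) (hinf : S_INF)
    (hroots : S_ROOTS) (hexpo : S_EXPO) (hlocl : S_LOCL)
    (W : WeierstrassCurve ℤ) (p l : ℕ) [hP : Fact p.Prime] [hL : Fact l.Prime] (hp2 : p ≠ 2)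
    (hpl : p ≠ l) (hd : p ∣ l - 1) (hd2 : ¬ p ^ 2 ∣ l - 1)
    (hpow : (p : ZMod l) ^ ((l - 1) / p) = 1) (hnt : NoTors W p l)
    (hb : ∀ (τ : AlgebraicClosure ℚ_[l] ≃ₐ[ℚ_[l]] AlgebraicClosure ℚ_[l])
      (P : Pt W (AlgebraicClosure ℚ_[l])), p • P = 0 →
      mapPt W (τ : AlgebraicClosure ℚ_[l] →+* AlgebraicClosure ℚ_[l]) P = P)
    (hc : ∀ τ : AlgebraicClosure ℚ_[l] ≃ₐ[ℚ_[l]] AlgebraicClosure ℚ_[l],
      (∀ (n : ℕ) (z : AlgebraicClosure ℚ_[l]), z ^ p ^ (n + 1) = 1 → τ z = z) →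
      ∀ (P : Pt W (AlgebraicClosure ℚ_[l])) (k : ℕ),
      p ^ k • (mapPt W (τ : AlgebraicClosure ℚ_[l] →+* AlgebraicClosure ℚ_[l]) P - P) = 0 →
      mapPt W (τ : AlgebraicClosure ℚ_[l] →+* AlgebraicClosure ℚ_[l]) P = P)
    (g : GQ) (τ₀ : AlgebraicClosure ℚ_[l] ≃ₐ[ℚ_[l]] AlgebraicClosure ℚ_[l])
    (hsame : SameCyc p g τ₀) (a : Sel W p l) (ha : ∀ h ∈ H p 1, selAct W p l h a = a) :
    ∃ d : H p 1 → Pt W Qb, IsCocycle W p 1 d ∧
      (∃ hd : resc W p (one_dvd l) d ∈ ZSel W p l, a = cls W p _ hd) ∧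
      p • d ∈ ZSel W p 1 ∧ cact W p 1 g d - d ∈ ZSel W p 1 := by
  obtain ⟨c, hcz, rfl⟩ := exists_cls a
  obtain ⟨d, hdc, hdr⟩ := hext W p l hP.out hL.out.pos hnt c hcz.1 (by
    intro h hh
    have h1 := ha h hh
    rw [selAct_cls, ← sub_eq_zero, cls_sub, cls_eq_zero] at h1
    obtain ⟨P, hP1, hP2⟩ := h1
    exact ⟨P, hP1, fun x => hP2 x⟩)
  subst hdr
  set s := (l - 1) / p with hs
  have hls : l - 1 = p * s := (Nat.mul_div_cancel' hd).symm
  have hl1 : 0 < l - 1 := Nat.sub_pos_of_lt hL.out.one_lt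
  have hs0 : 0 < s := Nat.pos_of_ne_zero (fun h => by rw [h, mul_zero] at hls; omega)
  have hsc : Nat.Coprime s p := by
    rw [Nat.coprime_comm, hP.out.coprime_iff_not_dvd]
    rintro ⟨t, ht⟩
    exact hd2 ⟨t, by rw [hls, ht]; ring⟩
  -- away from `l`
  have haway : ∀ (q : ℕ) [Fact q.Prime], q ≠ l → LocTriv W p 1 ℚ_[q] (AlgebraicClosure ℚ_[q]) d := by
    intro q _ hq
    refine hbez W p 1 hP.out _ _ d hdc s hsc ?_
    refine hlr W p l hP.out hL.out _ _ d hdc (hcz.2.fin q) s hs0 ?_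
    exact hexpo hroots p l hP.out hL.out hd q hq (fun _ => hpow)
  have hdinf : LocTriv W p 1 ℝ ℂ d := hinf W p 1 hP.out hp2 d hdc
  -- multiples
  have hnc : ∀ (n : ℕ), IsCocycle W p 1 (n • d) := by
    intro n
    induction n with
    | zero => rw [zero_smul]; exact IsCocycle.zero
    | succ n ih => rw [succ_nsmul]; exact ih.add hdc
  have hnl : ∀ (n : ℕ) {k Ω : Type} [Field k] [Field Ω] [Algebra k Ω],
      LocTriv W p 1 k Ω d → LocTriv W p 1 k Ω (n • d) := by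
    intro n k Ω _ _ _ h
    induction n with
    | zero => rw [zero_smul]; exact LocTriv.zero
    | succ n ih => rw [succ_nsmul]; exact ih.add h
  have hatl : LocTriv W p 1 ℚ_[l] (AlgebraicClosure ℚ_[l]) (p • d) := by
    refine hbez W p 1 hP.out _ _ (p • d) (hnc p) s hsc ?_
    have h1 := hlr W p l hP.out hL.out _ _ d hdc (hcz.2.fin l) (l - 1) hl1
      (fun τ _ z hz => root_pow hL.out τ hz)
    rw [hls, mul_comm, mul_smul] at h1
    exact h1
  refine ⟨d, hdc, ⟨hcz, rfl⟩, ⟨hnc p, ⟨?_, hnl p hdinf⟩⟩, ?_⟩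
  · intro q hq
    by_cases h : q = l
    · subst h
      exact hatl
    · exact hnl p (haway q h)
  · have h1 : IsCocycle W p 1 (cact W p 1 g d - d) := by
      rw [sub_eq_add_neg]
      exact (cact_isCocycle W p 1 g hdc).add hdc.neg
    refine ⟨h1, ⟨?_, ?_⟩⟩
    · intro q hq
      by_cases h : q = l
      · subst h
        exact hlocl W p q hP.out hpl hd hd2 hb hc d hdc (hcz.2.fin q) g τ₀ hsame
      · rw [sub_eq_add_neg]
        exact (cact_locTriv W p 1 g (haway q h)).add (haway q h).neg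
    · exact hinf W p 1 hP.out hp2 _ h1

/-- **The key statement**: the classes of `Sel(E/K_{l,∞})` killed by the ideal `J` are killed by
`p` and `g - 1`. -/
theorem key (hs : S_SIG) (hsm : S_SMOOTH) (hin : S_INNER) (hgen : S_GEN)
    (hext : S_EXT) (hinj : S_INJ) (hlr : S_LOCRES) (hbez : S_BEZ) (hinf : S_INF)
    (hroots : S_ROOTS) (hexpo : S_EXPO) (hlocl : S_LOCL)
    (W : WeierstrassCurve ℤ) (p l : ℕ) [hP : Fact p.Prime] [hL : Fact l.Prime] (hp2 : p ≠ 2)
    (hpl : p ≠ l) (hd : p ∣ l - 1) (hd2 : ¬ p ^ 2 ∣ l - 1)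
    (hpow : (p : ZMod l) ^ ((l - 1) / p) = 1) (hnt : NoTors W p l)
    (hb : ∀ (τ : AlgebraicClosure ℚ_[l] ≃ₐ[ℚ_[l]] AlgebraicClosure ℚ_[l])
      (P : Pt W (AlgebraicClosure ℚ_[l])), p • P = 0 →
      mapPt W (τ : AlgebraicClosure ℚ_[l] →+* AlgebraicClosure ℚ_[l]) P = P)
    (hc : ∀ τ : AlgebraicClosure ℚ_[l] ≃ₐ[ℚ_[l]] AlgebraicClosure ℚ_[l],
      (∀ (n : ℕ) (z : AlgebraicClosure ℚ_[l]), z ^ p ^ (n + 1) = 1 → τ z = z) →
      ∀ (P : Pt W (AlgebraicClosure ℚ_[l])) (k : ℕ),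
      p ^ k • (mapPt W (τ : AlgebraicClosure ℚ_[l] →+* AlgebraicClosure ℚ_[l]) P - P) = 0 →
      mapPt W (τ : AlgebraicClosure ℚ_[l] →+* AlgebraicClosure ℚ_[l]) P = P)
    (g : GQ) (τ₀ : AlgebraicClosure ℚ_[l] ≃ₐ[ℚ_[l]] AlgebraicClosure ℚ_[l])
    (hsame : SameCyc p g τ₀) (hg1 : ∀ z : Qb, z ^ p = 1 → g z = z)
    (hg2 : ∃ z : Qb, z ^ p ^ 2 = 1 ∧ g z ≠ z)
    -- classes over `K_{1,∞}`
    (hkill : ∀ b : Sel W p 1, p • b = 0 → (∀ σ : GQ, selAct W p 1 σ b = b) → b = 0)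
    (D : Set GQ) (hD : ∀ h : GQ, ∃ h' ∈ D, ∀ z : Qb, z ^ p = 1 → h z = h' z)
    (a : Sel W p l) (ha : ∀ h ∈ H p 1, selAct W p l h a = a) (ha1 : p ^ 2 • a = 0)
    (ha2 : p • (selAct W p l g a - a) = 0)
    (ha3 : selAct W p l g (selAct W p l g a - a) - (selAct W p l g a - a) = 0)
    (ha4 : ∀ δ ∈ D, selAct W p l δ a = a) : p • a = 0 ∧ selAct W p l g a = a := by
  obtain ⟨d, hdc, ⟨hcz, rfl⟩, hz1, hz2⟩ := descend hext hlr hbez hinf hroots hexpo hlocl W p l hp2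
    hpl hd hd2 hpow hnt hb hc g τ₀ hsame a ha
  -- vanishing of classes over `K_{1,∞}` can be tested over `K_{l,∞}`
  have htest : ∀ (e : H p 1 → Pt W Qb) (he : e ∈ ZSel W p 1),
      resc W p (one_dvd l) e ∈ BSel W p l → cls W p e he = 0 := by
    intro e he h
    obtain ⟨P, hP1, hP2⟩ := h
    rw [cls_eq_zero]
    exact ⟨P, hP1, hinj W p l hP.out hnt e he.1 P hP1 hP2⟩
  have hpos : 0 < p := hP.out.pos
  -- a class killed by `p` and fixed by `g` and `D` vanishes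
  have hvan : ∀ b : Sel W p 1, p • b = 0 → selAct W p 1 g b = b →
      (∀ δ ∈ D, selAct W p 1 δ b = b) → b = 0 := by
    intro b hb1 hb2 hb3
    refine hkill b hb1 ?_
    obtain ⟨-, n, hn⟩ := hsm W p 1 hP.out le_rfl b
    let G : Subgroup GQ :=
      { carrier := {σ | selAct W p 1 σ b = b}
        mul_mem' := by
          intro x y hx hy
          change selAct W p 1 (x * y) b = b
          rw [selAct_mul', hy, hx]
        one_mem' := selAct_one' b
        inv_mem' := by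
          intro x hx
          change selAct W p 1 x⁻¹ b = b
          conv_lhs => rw [← show selAct W p 1 x b = b from hx]
          rw [← selAct_mul', inv_mul_cancel, selAct_one'] }
    have h1 := hgen hs p hP.out hp2 g hg1 hg2 G n (fun h hh => hn h (fun z hz => hh z (by
      rw [one_mul] at hz; exact hz))) hb2 (fun h => by
        obtain ⟨h', hh', hh2⟩ := hD h
        exact ⟨h', hb3 h' hh', hh2⟩)
    exact fun σ => h1 σ
  rw [cls_nsmul, cls_eq_zero] at ha1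
  rw [selAct_cls, cls_sub, cls_nsmul, cls_eq_zero] at ha2
  rw [selAct_cls, cls_sub, selAct_cls, cls_sub, cls_eq_zero] at ha3
  have ha4' : ∀ δ ∈ D, cact W p l δ (resc W p (one_dvd l) d) - resc W p (one_dvd l) d ∈
      BSel W p l := by
    intro δ hδ
    have h := ha4 δ hδ
    rw [selAct_cls, ← sub_eq_zero, cls_sub, cls_eq_zero] at h
    exact h
  have b1 : cls W p _ hz1 = 0 := by
    refine hvan _ ?_ ?_ ?_
    · rw [cls_nsmul]
      refine htest _ _ ?_
      have : resc W p (one_dvd l) (p • p • d) = p ^ 2 • resc W p (one_dvd l) d := by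
        rw [pow_two, mul_smul]; rfl
      rw [this]
      exact ha1
    · rw [← sub_eq_zero, selAct_cls, cls_sub]
      refine htest _ _ ?_
      have : resc W p (one_dvd l) (cact W p 1 g (p • d) - p • d) =
          p • (cact W p l g (resc W p (one_dvd l) d) - resc W p (one_dvd l) d) := by
        rw [map_nsmul, smul_sub]; rfl
      rw [this]
      exact ha2
    · intro δ hδ
      rw [← sub_eq_zero, selAct_cls, cls_sub]
      refine htest _ _ ?_
      have : resc W p (one_dvd l) (cact W p 1 δ (p • d) - p • d) =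
          p • (cact W p l δ (resc W p (one_dvd l) d) - resc W p (one_dvd l) d) := by
        rw [map_nsmul, smul_sub]; rfl
      rw [this]
      exact (BSel W p l).nsmul_mem (ha4' δ hδ) p
  have b2 : cls W p _ hz2 = 0 := by
    refine hvan _ ?_ ?_ ?_
    · rw [cls_nsmul]
      refine htest _ _ ?_
      exact ha2
    · rw [← sub_eq_zero, selAct_cls, cls_sub]
      refine htest _ _ ?_
      exact ha3
    · intro δ hδ
      rw [← sub_eq_zero, selAct_cls, cls_sub]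
      refine htest _ _ ?_
      -- `(δ-1)(g-1) a = 0`
      have h1 := selAct_comm hs hin hL.out.pos hpos δ g (cls W p _ hcz)
      rw [ha4 δ hδ] at h1
      have h2 : selAct W p l δ (selAct W p l g (cls W p _ hcz) - cls W p _ hcz) -
          (selAct W p l g (cls W p _ hcz) - cls W p _ hcz) = 0 := by
        rw [map_sub, h1, ha4 δ hδ, sub_self]
      rw [selAct_cls, cls_sub, selAct_cls, cls_sub, cls_eq_zero] at h2
      exact h2
  rw [cls_eq_zero] at b1 b2
  constructor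
  · rw [cls_nsmul, cls_eq_zero]
    obtain ⟨P, hP1, hP2⟩ := b1
    exact ⟨P, hP1, fun x => hP2 ⟨x.1, H_mono p (one_dvd l) x.2⟩⟩
  · rw [← sub_eq_zero, selAct_cls, cls_sub, cls_eq_zero]
    obtain ⟨P, hP1, hP2⟩ := b2
    exact ⟨P, hP1, fun x => hP2 ⟨x.1, H_mono p (one_dvd l) x.2⟩⟩

end Pool.Agent.W97.KE
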