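import Pool.Agent.W97.KE.Asm1

/-!
The final contradiction, for a curve `W`, primes `p`, `l`, given the independent parts.
-/

set_option autoImplicit false

open scoped Classical

namespace Pool.Agent.W97.KE

open Pool.Agent.W97.MT (prim IsGloballyMinimal affCount ap)

section ring
variable {S : Type} [CommRing S] {p : ℕ} [hP : Fact p.Prime]

theorem cast_val (h2 : (p : S) * p = 0) (n : ℕ) : (((n : ZMod (p ^ 2)).val : ℕ) : S) = n := by
  rw [ZMod.val_natCast]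
  conv_rhs => rw [← Nat.mod_add_div n (p ^ 2)]
  rw [Nat.cast_add, Nat.cast_mul, Nat.cast_pow, pow_two (p : S), h2, zero_mul, add_zero]

theorem unit_of_coprime (h2 : (p : S) * p = 0) {n : ℕ} (hn : Nat.Coprime n p) :
    IsUnit (n : S) := by
  have h1 : Nat.Coprime n (p ^ 2) := hn.pow_right 2
  have h3 : (n : ZMod (p ^ 2)) * (((n : ZMod (p ^ 2))⁻¹).val : ℕ) = 1 := by
    rw [ZMod.natCast_zmod_val]
    exact ZMod.coe_mul_inv_eq_one n h1
  have h4 : (((n * ((n : ZMod (p ^ 2))⁻¹).val : ℕ) : ZMod (p ^ 2)).val : S) = 1 := by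
    push_cast
    rw [h3]
    have : Fact (1 < p ^ 2) := ⟨Nat.one_lt_pow two_ne_zero hP.out.one_lt⟩
    rw [ZMod.val_one, Nat.cast_one]
  rw [cast_val h2] at h4
  push_cast at h4
  exact IsUnit.of_mul_eq_one _ h4

/-- a multiple of `p` in `ℤ_p`, in `S` -/
theorem cast_pmul (h2 : (p : S) * p = 0) (z : ℤ_[p]) : ∃ n : ℕ,
    (((PadicInt.toZModPow 2 ((p : ℤ_[p]) * z)).val : ℕ) : S) = p * n ∧
      (IsUnit z → Nat.Coprime n p) := by
  refine ⟨(PadicInt.toZMod z).val, ?_, ?_⟩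
  · have h1 : PadicInt.toZModPow 2 ((p : ℤ_[p]) * z) =
        ((p * (PadicInt.toZMod z).val : ℕ) : ZMod (p ^ 2)) := by
      have h3 : (p : ℤ_[p]) ∣ z - (((PadicInt.toZMod z).val : ℕ) : ℤ_[p]) := by
        have h4 : PadicInt.toZMod (z - (((PadicInt.toZMod z).val : ℕ) : ℤ_[p])) = 0 := by
          rw [map_sub, map_natCast, ZMod.natCast_zmod_val, sub_self]
        have h5 : z - (((PadicInt.toZMod z).val : ℕ) : ℤ_[p]) ∈
          RingHom.ker (PadicInt.toZMod (p := p)) := h4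
        rw [PadicInt.ker_toZMod, PadicInt.maximalIdeal_eq_span_p, Ideal.mem_span_singleton] at h5
        exact h5
      obtain ⟨t, ht⟩ := h3
      have h6 : (p : ℤ_[p]) * z = ((p * (PadicInt.toZMod z).val : ℕ) : ℤ_[p]) + p ^ 2 * t := by
        push_cast
        linear_combination (p : ℤ_[p]) * ht
      rw [h6, map_add, map_natCast, map_mul]
      have h7 : PadicInt.toZModPow 2 ((p : ℤ_[p]) ^ 2) = 0 := by
        rw [map_pow, map_natCast]
        have := ZMod.natCast_self (p ^ 2)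
        push_cast at this
        exact this
      rw [h7, zero_mul, add_zero]
    rw [h1, cast_val h2]
    push_cast
    rfl
  · intro hz
    rw [Nat.coprime_comm, hP.out.coprime_iff_not_dvd]
    intro hd
    have h1 : PadicInt.toZMod z ≠ 0 := (hz.map (PadicInt.toZMod (p := p))).ne_zero
    apply h1
    rw [← ZMod.natCast_zmod_val (PadicInt.toZMod z), ZMod.natCast_eq_zero_iff]
    exact hd

end ring

/-- the products of roots of unity of order `l` and of `p`-power order -/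
theorem mem_H {p l : ℕ} (hp : 0 < p) (hl : 0 < l) (hpl : Nat.Coprime l p) {h : GQ} (h1 : h ∈ H p 1)
    (h2 : ∀ z : Qb, z ^ l = 1 → h z = z) : h ∈ H p l := by
  intro n z hz
  have hc : Nat.Coprime l (p ^ (n + 1)) := hpl.pow_right _
  have hcz : IsCoprime (l : ℤ) ((p ^ (n + 1) : ℕ) : ℤ) := Nat.isCoprime_iff_coprime.2 hc
  obtain ⟨a, b, hab⟩ := hcz
  have hz0 : z ≠ 0 := by
    rintro rfl
    rw [zero_pow (Nat.mul_pos hl (pow_pos hp _)).ne'] at hz
    exact zero_ne_one hz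
  have e1 : h (z ^ l) = z ^ l := h1 n _ (by rw [one_mul, ← pow_mul, hz])
  have e2 : h (z ^ p ^ (n + 1)) = z ^ p ^ (n + 1) := h2 _ (by rw [← pow_mul, mul_comm, hz])
  have e3 : z = (z ^ l) ^ a * (z ^ p ^ (n + 1)) ^ b := by
    rw [← zpow_natCast z l, ← zpow_natCast z (p ^ (n + 1)), ← zpow_mul, ← zpow_mul,
      ← zpow_add₀ hz0, mul_comm (l : ℤ) a, mul_comm _ b, hab, zpow_one]
  conv_lhs => rw [e3]
  rw [map_mul, map_zpow₀, map_zpow₀, e1, e2, ← e3]

set_option maxHeartbeats 4000000 in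
/-- the contradiction -/
theorem final (hs : S_SIG) (hsm : S_SMOOTH) (hin : S_INNER) (hgen : S_GEN) (hlam : S_LAM)
    (hext : S_EXT) (hinj : S_INJ) (hlr : S_LOCRES) (hbez : S_BEZ) (hinf : S_INF)
    (hroots : S_ROOTS) (hexpo : S_EXPO) (hlocl : S_LOCL) (hmod : S_MOD) (hgrp : S_GRP)
    (halg : S_ALG) (hfitt : S_FITT) (hdual : S_DUAL) (hreal : S_REAL) (hfrob : S_FROB) (hab : S_AB)
    (hproj : S_PROJ) (haug : S_AUG)
    (W : WeierstrassCurve ℤ) (p l : ℕ) [hP : Fact p.Prime] [hL : Fact l.Prime] (hp2 : p ≠ 2)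
    (hpl : p ≠ l) (hd : p ∣ l - 1) (hd2 : ¬ p ^ 2 ∣ l - 1)
    (hpow : (p : ZMod l) ^ ((l - 1) / p) = 1) (hnt : NoTors W p l)
    (hb : ∀ (τ : AlgebraicClosure ℚ_[l] ≃ₐ[ℚ_[l]] AlgebraicClosure ℚ_[l])
      (P : Pt W (AlgebraicClosure ℚ_[l])), p • P = 0 →
      mapPt W (τ : AlgebraicClosure ℚ_[l] →+* AlgebraicClosure ℚ_[l]) P = P)
    (hc : ∀ τ : AlgebraicClosure ℚ_[l] ≃ₐ[ℚ_[l]] AlgebraicClosure ℚ_[l],
      (∀ (n : ℕ) (z : AlgebraicClosure ℚ_[l]), z ^ p ^ (n + 1) = 1 → τ z = z) →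
      ∀ (P : Pt W (AlgebraicClosure ℚ_[l])) (k : ℕ),
      p ^ k • (mapPt W (τ : AlgebraicClosure ℚ_[l] →+* AlgebraicClosure ℚ_[l]) P - P) = 0 →
      mapPt W (τ : AlgebraicClosure ℚ_[l] →+* AlgebraicClosure ℚ_[l]) P = P)
    (hal : (p : ℤ) ∣ ap W l - 2) (hap : ¬ (p : ℤ) ∣ ap W p - 1)
    -- the modules
    [Module (Rm p 1) (Sel W p 1)] [Module (Rm p l) (Sel W p l)]
    (hm1 : ∀ (r : Rm p 1) (a : Sel W p 1), r • a = smulSel W p 1 r a)
    (hml : ∀ (r : Rm p l) (a : Sel W p l), r • a = smulSel W p l r a)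
    -- the formula for `m = 1`
    (S₁ : Symb W) (hper₁ : ∀ r, S₁.plus (r + 1) = S₁.plus r ∧ S₁.minus (r + 1) = S₁.minus r)
    (hhp₁ : HeckeRel S₁ p) (h0₁ : S₁.plus 0 + S₁.minus 0 ≠ 0)
    (hv₁ : padicValRat p (S₁.plus 0 + S₁.minus 0) = 0)
    (α₁ : ℤ_[p]) (hα₁ : α₁ ^ 2 - ap W p * α₁ + p = 0) (hu₁ : IsUnit α₁)
    (y₁ : Rm p 1) (hy₁ : IsTheta S₁ α₁ 1 y₁) (I₁ : Ideal (Rm p 1)) (hyI₁ : y₁ ∈ I₁)
    (hF₁ : IsFitt (Rm p 1) (CharacterModule (Sel W p 1)) I₁)
    -- the formula for `m = l`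
    (S₂ : Symb W) (hper₂ : ∀ r, S₂.plus (r + 1) = S₂.plus r ∧ S₂.minus (r + 1) = S₂.minus r)
    (hhp₂ : HeckeRel S₂ p) (hhl₂ : HeckeRel S₂ l) (h0₂ : S₂.plus 0 + S₂.minus 0 ≠ 0)
    (hv₂ : padicValRat p (S₂.plus 0 + S₂.minus 0) = 0)
    (α₂ : ℤ_[p]) (hα₂ : α₂ ^ 2 - ap W p * α₂ + p = 0) (hu₂ : IsUnit α₂)
    (y₂ : Rm p 1) (hy₂ : IsTheta S₂ α₂ 1 y₂) (x₂ : Rm p l) (hx₂ : IsTheta S₂ α₂ l x₂)
    (v₂ : Rm p l) (hv : v₂.1 = nuFun p (one_dvd l) y₂.1)
    (I₂ : Ideal (Rm p l)) (hI₂ : I₂ = Ideal.span {v₂, x₂})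
    (hF₂ : IsFitt (Rm p l) (CharacterModule (Sel W p l)) I₂) : False := by
  have hpos : 0 < p := hP.out.pos
  have hlpos : 0 < l := hL.out.pos
  have hcop : Nat.Coprime l p := (Nat.coprime_primes hL.out hP.out).2 (Ne.symm hpl)
  obtain ⟨lam, hlam1, hlam2, hlam3⟩ := hlam p hP.out hp2
  obtain ⟨g, τ₀, hsame, hg1, hg2⟩ := hfrob p l hP.out hpl hd hd2
  have hsm1 := hsm W p 1 hP.out le_rfl
  have hsml := hsm W p l hP.out hlpos
  obtain ⟨-, -, -, -, -, -, hform1⟩ := hmod hs W p 1 le_rfl hsm1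
  obtain ⟨hmull, -, -, -, -, -, hforml⟩ := hmod hs W p l hlpos hsml
  obtain ⟨-, hg1b⟩ := hgrp hs p 1 le_rfl
  obtain ⟨-, hkill1⟩ := hg1b W hsm1 (fun h h' a => selAct_mul' h h' a) hform1
  obtain ⟨hexl, hglb⟩ := hgrp hs p l hlpos
  obtain ⟨hactl, -⟩ := hglb W hsml hmull hforml
  -- classes over `K_{1,∞}`
  have haug1 := haug W S₁ p hper₁ hhp₁ α₁ hα₁ hu₁ hap h0₁ hv₁ y₁ hy₁
  have hkill : ∀ b : Sel W p 1, p • b = 0 → (∀ σ : GQ, selAct W p 1 σ b = b) → b = 0 := by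
    intro b hb1 hb2
    refine hkill1 y₁ b hb1 hb2 haug1 ?_
    rw [← hm1]
    refine CharacterModule.eq_zero_of_character_apply fun f => ?_
    have h1 := (hfitt _ _ I₁ hF₁).1 y₁ hyI₁ f
    have h2 : (y₁ • f) b = f (y₁ • b) := rfl
    rw [← h2, h1]
    rfl
  -- the ring `S`
  have hlg : ∃ u : (ZMod (1 * p ^ (1 + 1)))ˣ, IsSig (1 * p ^ (1 + 1)) u g⁻¹ ∧ lam u ≠ 0 := by
    have hN : 1 ≤ 1 * p ^ (1 + 1) := Nat.mul_pos one_pos (pow_pos hpos _)
    obtain ⟨u, hu⟩ := hs.2.1 _ hN g⁻¹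
    refine ⟨u, hu, fun h0 => ?_⟩
    rw [hlam2] at h0
    -- `u^p = 1`
    have hpw : ∀ (n : ℕ), IsSig (1 * p ^ (1 + 1)) (u ^ n) (g⁻¹ ^ n) := by
      intro n
      induction n with
      | zero =>
        intro z _
        rw [pow_zero, pow_zero]
        by_cases h1 : 1 * p ^ (1 + 1) = 1
        · exact absurd h1 (by
            rw [one_mul]
            exact (Nat.one_lt_pow (by norm_num) hP.out.one_lt).ne')
        · have : Fact (1 < 1 * p ^ (1 + 1)) := ⟨lt_of_le_of_ne hN (Ne.symm h1)⟩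
          rw [Units.val_one, ZMod.val_one, pow_one]
          rfl
      | succ n ih =>
        rw [pow_succ u n, pow_succ g⁻¹ n]
        exact (hs.2.2.1 _ hN _ _ _ _ ih hu).1
    have hginv : ∀ z : Qb, z ^ p = 1 → g⁻¹ z = z := by
      intro z hz
      conv_lhs => rw [← hg1 z hz]
      exact g.symm_apply_apply z
    have hup : u ^ p = 1 := by
      have h1 := hpw p
      have h2 := hpw 0
      rw [pow_zero, pow_zero] at h2
      refine (hs.2.2.1 _ hN _ _ _ _ h1 h2).2.2.2 ?_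
      intro z hz
      rw [inv_one, one_mul]
      -- `g⁻¹ z = z ζ` with `ζ^p = 1`
      have hz0 : z ≠ 0 := by
        rintro rfl
        rw [zero_pow (by positivity)] at hz
        exact zero_ne_one hz
      have h3 : g⁻¹ (z ^ p) = z ^ p := hginv _ (by
        rw [← pow_mul, ← hz]
        congr 1
        ring)
      set ζ := g⁻¹ z / z with hζ
      have h4 : ζ ^ p = 1 := by
        rw [hζ, div_pow, ← map_pow, h3, div_self (pow_ne_zero _ hz0)]
      have h5 : g⁻¹ z = z * ζ := by rw [hζ]; field_simp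
      have h6 : ∀ n : ℕ, (g⁻¹ ^ n) z = z * ζ ^ n := by
        intro n
        induction n with
        | zero => simp
        | succ n ih =>
          rw [pow_succ', AlgEquiv.mul_apply, ih, map_mul, map_pow, hginv ζ h4, h5, pow_succ]
          ring
      rw [h6, h4, mul_one]
    have hu1 : u = 1 := by
      have h1 : u ^ p = u ^ (p - 1) * u := by
        rw [← pow_succ, Nat.sub_add_cancel hpos]
      rw [hup, h0] at h1
      simpa using h1.symm
    obtain ⟨z, hz1, hz2⟩ := hg2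
    have h2 := hpw 0
    rw [pow_zero, pow_zero] at h2
    have h3 := (hs.2.2.1 _ hN _ _ _ _ hu h2).2.2.1 hu1 z (by rw [← hz1]; congr 1; ring)
    rw [inv_one, one_mul] at h3
    apply hz2
    conv_lhs => rw [← h3]
    exact g.apply_symm_apply z
  obtain ⟨ug, hug, hlug⟩ := hlg
  obtain ⟨S, _, π, T, ρ, hρs, hππ, hπT, hTT, hπ0, hTπ, hloc, hpπ, hρ⟩ :=
    hreal p l hlpos (fun h => hpl ((Nat.prime_dvd_prime_iff_eq hP.out hL.out).1 h)) lam hlam1
      ⟨ug, hlug⟩
  have hpp : (p : S) * p = 0 := by rw [hpπ]; exact hππ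
  have hpT : (p : S) * T = 0 := by rw [hpπ]; exact hπT
  have hN : 1 ≤ l * p ^ (1 + 1) := Nat.mul_pos hlpos (pow_pos hpos _)
  have hN1 : 1 ≤ 1 * p ^ (1 + 1) := Nat.mul_pos one_pos (pow_pos hpos _)
  have : NeZero (l * p ^ (1 + 1)) := ⟨by omega⟩
  have : NeZero (1 * p ^ (1 + 1)) := ⟨by omega⟩
  have : NeZero l := ⟨by omega⟩
  -- group elements: `gr σ` acts on the Selmer group as `σ`
  choose gr0 hgr0 using hexl
  let gr : GQ → Rm p l := fun σ => gr0 σ⁻¹
  have hgr : ∀ (σ : GQ) (a : Sel W p l), gr σ • a = selAct W p l σ a := by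
    intro σ a
    rw [hml, hactl _ _ (hgr0 σ⁻¹), inv_inv]
  have hρgr : ∀ (σ : GQ) (u : (ZMod (1 * p ^ (1 + 1)))ˣ), IsSig (1 * p ^ (1 + 1)) u σ⁻¹ →
      ρ (gr σ) = 1 + ((lam u).val : S) * T := by
    intro σ u hu
    obtain ⟨w, hw1, hw2⟩ := hgr0 σ⁻¹ 1
    have h1 := hs.2.2.2 _ _ hN (Nat.mul_dvd_mul_right (one_dvd l) (p ^ (1 + 1))) w σ⁻¹ hw1
    have h2 : prl p l w = u := by
      refine (hs.2.2.1 _ hN1 _ _ _ _ h1 hu).2.2.2 ?_
      intro z _
      rw [inv_mul_cancel]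
      rfl
    rw [hρ, hw2]
    have h3 : (∑ᶠ u : (ZMod (l * p ^ (1 + 1)))ˣ, PadicInt.toZModPow 2
        ((MonoidAlgebra.single w (1 : ℤ_[p])).coeff u)) = 1 := by
      rw [finsum_eq_single _ w]
      · rw [MonoidAlgebra.coeff_single, Finsupp.single_eq_same, map_one]
      · intro x hx
        rw [MonoidAlgebra.coeff_single, Finsupp.single_eq_of_ne hx, map_zero]
    have h4 : (∑ᶠ u : (ZMod (l * p ^ (1 + 1)))ˣ, lam (prl p l u) * PadicInt.toZMod
        ((MonoidAlgebra.single w (1 : ℤ_[p])).coeff u)) = lam u := by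
      rw [finsum_eq_single _ w]
      · rw [MonoidAlgebra.coeff_single, Finsupp.single_eq_same, map_one, mul_one, h2]
      · intro x hx
        rw [MonoidAlgebra.coeff_single, Finsupp.single_eq_of_ne hx, map_zero, mul_zero]
    have : Fact (1 < p ^ 2) := ⟨Nat.one_lt_pow two_ne_zero hP.out.one_lt⟩
    rw [h3, h4, ZMod.val_one, Nat.cast_one]
  -- the finite sets of elements
  let D : (ZMod (1 * p ^ (1 + 1)))ˣ → GQ := fun v => if lam v = 0 then sig (1 * p ^ (1 + 1)) v else 1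
  have hsig : ∀ v : (ZMod (1 * p ^ (1 + 1)))ˣ, IsSig (1 * p ^ (1 + 1)) v
      (sig (1 * p ^ (1 + 1)) v) := fun v => Classical.epsilon_spec (hs.1 _ hN1 v)
  let t : (ZMod l)ˣ → GQ := fun u => if h : ∃ τ : GQ, τ ∈ H p 1 ∧ IsSig l u τ then h.choose else 1
  have ht1 : ∀ u, t u ∈ H p 1 := by
    intro u
    by_cases h : ∃ τ : GQ, τ ∈ H p 1 ∧ IsSig l u τ
    · have : t u = h.choose := dif_pos h
      rw [this]
      exact h.choose_spec.1
    · have : t u = 1 := dif_neg h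
      rw [this]
      exact (H p 1).one_mem
  have ht2 : ∀ u (τ : GQ), τ ∈ H p 1 → IsSig l u τ → IsSig l u (t u) := by
    intro u τ h1 h2
    have h : ∃ τ : GQ, τ ∈ H p 1 ∧ IsSig l u τ := ⟨τ, h1, h2⟩
    have : t u = h.choose := dif_pos h
    rw [this]
    exact h.choose_spec.2
  let F : Finset (Rm p l) := {((p : Rm p l)) ^ 2, (p : Rm p l) * (gr g - 1), (gr g - 1) * (gr g - 1)} ∪
    (Finset.univ.image fun v => gr (D v) - 1) ∪ (Finset.univ.image fun u => gr (t u) - 1)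
  -- the classes killed by `F`
  have hA : ∀ a : Sel W p l, (∀ j ∈ F, j • a = 0) → p • a = 0 ∧ selAct W p l g a = a := by
    intro a haF
    have f1 := haF ((p : Rm p l) ^ 2) (by simp [F])
    have f2 := haF ((p : Rm p l) * (gr g - 1)) (by simp [F])
    have f3 := haF ((gr g - 1) * (gr g - 1)) (by simp [F])
    have f4 : ∀ v, selAct W p l (D v) a = a := by
      intro v
      have h1 := haF (gr (D v) - 1) (by simp [F])
      rw [sub_smul, one_smul, hgr, sub_eq_zero] at h1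
      exact h1
    have f5 : ∀ u, selAct W p l (t u) a = a := by
      intro u
      have h1 := haF (gr (t u) - 1) (by simp [F])
      rw [sub_smul, one_smul, hgr, sub_eq_zero] at h1
      exact h1
    refine key hs hsm hin hgen hext hinj hlr hbez hinf hroots hexpo hlocl W p l hp2 hpl hd hd2
      hpow hnt hb hc g τ₀ hsame hg1 hg2 hkill (Set.range D) ?_ a ?_ ?_ ?_ ?_ ?_
    · intro h
      obtain ⟨u, hu⟩ := hs.2.1 _ hN1 h
      obtain ⟨v, hv0, hv1⟩ := hlam3 u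
      refine ⟨D v, ⟨v, rfl⟩, fun z hz => ?_⟩
      have : D v = sig (1 * p ^ (1 + 1)) v := if_pos hv0
      rw [this]
      exact hv1 z h _ hu (hsig v) hz
    · intro h hh
      obtain ⟨u, hu⟩ := hs.2.1 _ hlpos h
      have h1 := ht2 u h hh hu
      have h2 : (t u)⁻¹ * h ∈ H p l := by
        refine mem_H hpos hlpos hcop ((H p 1).mul_mem ((H p 1).inv_mem (ht1 u)) hh) ?_
        exact (hs.2.2.1 _ hlpos _ _ _ _ hu h1).2.2.1 rfl
      have h3 : h = t u * ((t u)⁻¹ * h) := by group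
      rw [h3, selAct_mul', hin W p l _ h2, f5]
    · rw [← f1]
      have : ((p : Rm p l)) ^ 2 = ((p ^ 2 : ℕ) : Rm p l) := by push_cast; rfl
      rw [this, Nat.cast_smul_eq_nsmul]
    · rw [← f2, mul_smul, Nat.cast_smul_eq_nsmul, sub_smul, one_smul, hgr]
    · rw [← f3, mul_smul, sub_smul, one_smul, sub_smul, one_smul, hgr, hgr]
    · rintro _ ⟨v, rfl⟩
      exact f4 v
  -- the elements `p` and `g - 1` map the dual into `J` times the dual
  let J : Ideal (Rm p l) := Ideal.span (F : Set (Rm p l))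
  have ht : ∀ r ∈ ({(p : Rm p l), gr g - 1} : Set (Rm p l)), ∀ f : CharacterModule (Sel W p l),
      r • f ∈ (J • (⊤ : Submodule (Rm p l) (CharacterModule (Sel W p l))) :
        Submodule (Rm p l) (CharacterModule (Sel W p l))) := by
    intro r hr f
    refine hdual _ _ F (r • f) fun a ha => ?_
    have h1 : (r • f) a = f (r • a) := rfl
    obtain ⟨h2, h3⟩ := hA a ha
    rcases hr with rfl | hr
    · rw [h1, Nat.cast_smul_eq_nsmul, h2, map_zero]
    · rw [Set.mem_singleton_iff] at hr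
      rw [h1, hr, sub_smul, one_smul, hgr, h3, sub_self, map_zero]
  have hlam_one : lam 1 = 0 := by
    have := hlam1 1 1
    rw [mul_one] at this
    simpa using this
  have hlam_inv : ∀ v, lam v = 0 → lam v⁻¹ = 0 := by
    intro v hv
    have := hlam1 v v⁻¹
    rw [mul_inv_cancel, hlam_one, hv, zero_add] at this
    exact this.symm
  have hone : IsSig (1 * p ^ (1 + 1)) 1 (1 : GQ) := by
    obtain ⟨u, hu⟩ := hs.2.1 _ hN1 (1 : GQ)
    have h1 := (hs.2.2.1 _ hN1 _ _ _ _ hu hu).2.1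
    have h2 := (hs.2.2.1 _ hN1 _ _ _ _ hu h1).1
    rw [mul_inv_cancel, mul_inv_cancel] at h2
    exact h2
  have hρJ : ∀ j ∈ J, ρ j = 0 := by
    intro j hj
    have hle : J ≤ RingHom.ker ρ := by
      rw [Ideal.span_le]
      intro j hj
      rw [SetLike.mem_coe, RingHom.mem_ker]
      have hj' : j ∈ F := hj
      simp only [F, Finset.mem_union, Finset.mem_insert, Finset.mem_singleton, Finset.mem_image,
        Finset.mem_univ, true_and] at hj'
      rcases hj' with ((rfl | rfl | rfl) | ⟨v, rfl⟩) | ⟨u, rfl⟩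
      · rw [map_pow, map_natCast, pow_two, hpp]
      · rw [map_mul, map_natCast, map_sub, map_one, hρgr g ug hug]
        linear_combination ((lam ug).val : S) * hpT
      · rw [map_mul, map_sub, map_one, hρgr g ug hug]
        linear_combination ((lam ug).val : S) ^ 2 * hTT
      · rw [map_sub, map_one]
        by_cases h0 : lam v = 0
        · have : D v = sig (1 * p ^ (1 + 1)) v := if_pos h0
          rw [this, hρgr _ v⁻¹ (hs.2.2.1 _ hN1 _ _ _ _ (hsig v) (hsig v)).2.1, hlam_inv v h0]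
          simp
        · have : D v = 1 := if_neg h0
          rw [this, hρgr 1 1 (by rw [inv_one]; exact hone), hlam_one]
          simp
      · rw [map_sub, map_one]
        obtain ⟨w, hw⟩ := hs.2.1 _ hN1 (t u)⁻¹
        have hw1 : w = 1 := by
          refine (hs.2.2.1 _ hN1 _ _ _ _ hw hone).2.2.2 ?_
          intro z hz
          rw [inv_one, one_mul]
          exact (H p 1).inv_mem (ht1 u) 1 z hz
        rw [hρgr _ w hw, hw1, hlam_one]
        simp
    exact hle hj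
  obtain ⟨n, N, hN2, hN3⟩ := (hfitt _ _ I₂ hF₂).2 S ρ hρs J hρJ _ ht
  have hNπ : ∀ v : Fin n → S, π • v ∈ N := by
    intro v
    have := hN2 (p : Rm p l) (by simp) v
    rwa [map_natCast, hpπ] at this
  have hNT : ∀ v : Fin n → S, T • v ∈ N := by
    intro v
    have h1 := hN2 (gr g - 1) (by simp) v
    rw [map_sub, map_one, hρgr g ug hug, add_sub_cancel_left] at h1
    have hc : Nat.Coprime (lam ug).val p := by
      rw [Nat.coprime_comm, hP.out.coprime_iff_not_dvd]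
      intro hdv
      apply hlug
      rw [← ZMod.natCast_zmod_val (lam ug), ZMod.natCast_eq_zero_iff]
      exact hdv
    obtain ⟨w, hw⟩ := (unit_of_coprime hpp hc).exists_left_inv
    have h2 := N.smul_mem w h1
    rw [smul_smul, ← mul_assoc, hw, one_mul] at h2
    exact h2
  refine halg S π T hππ hπT hTT hπ0 hTπ hloc n N hNπ hNT ?_
  rw [hN3, hI₂, Ideal.map_span]
  -- the images of the generators
  obtain ⟨hab1, hab2, hab3⟩ := hab p l hL.out hd hpl lam hlam1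
  have haug2 := haug W S₂ p hper₂ hhp₂ α₂ hα₂ hu₂ hap h0₂ hv₂ y₂ hy₂
  have hv₂' : ∃ e : S, IsUnit e ∧ ρ v₂ = π * e := by
    rw [hρ, hv]
    have e1 := hab1 y₂.1
    have e2 := hab2 y₂.1
    rw [e2, ZMod.val_zero, Nat.cast_zero, zero_mul, add_zero]
    have e3 : (∑ᶠ u : (ZMod (l * p ^ (1 + 1)))ˣ, PadicInt.toZModPow 2
        (((nuFun p (one_dvd l) y₂.1) 1).coeff u)) = PadicInt.toZModPow 2
        (((l - 1 : ℕ) : ℤ_[p]) * ∑ᶠ u : (ZMod (1 * p ^ (1 + 1)))ˣ, ((y₂.1 1).coeff u : ℤ_[p])) := by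
      rw [← e1]
      exact (AddMonoidHom.map_finsum (PadicInt.toZModPow (p := p) 2).toAddMonoidHom
        (Set.toFinite _)).symm
    rw [e3]
    obtain ⟨s, hs1⟩ := hd
    have hsc : Nat.Coprime s p := by
      rw [Nat.coprime_comm, hP.out.coprime_iff_not_dvd]
      rintro ⟨t', ht'⟩
      exact hd2 ⟨t', by rw [hs1, ht']; ring⟩
    rw [hs1]
    push_cast
    rw [mul_assoc]
    obtain ⟨m, hm1', hm2⟩ := cast_pmul (S := S) hpp ((s : ℤ_[p]) *
      ∑ᶠ u : (ZMod (1 * p ^ (1 + 1)))ˣ, ((y₂.1 1).coeff u : ℤ_[p]))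
    refine ⟨m, unit_of_coprime hpp (hm2 ?_), by rw [hm1', hpπ]⟩
    refine IsUnit.mul ?_ haug2
    rw [PadicInt.isUnit_iff, PadicInt.norm_natCast_eq_one_iff]
    exact hsc.symm
  have hx₂' : ∃ e : S, ρ x₂ = π * e := by
    rw [hρ]
    have hcl : IsUnit ((l : ℕ) : ZMod (1 * p ^ (1 + 1))) := by
      rw [ZMod.isUnit_iff_coprime]
      rw [one_mul]
      exact hcop.pow_right _
    have hpr := hproj W S₂ p l hL.out (Ne.symm hpl) hper₂ hhl₂ α₂ x₂ y₂ hx₂ hy₂ hcl.unit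
      hcl.unit_spec
    obtain ⟨⟨z, hz⟩, e2⟩ := hab3 x₂ y₂ (ap W l) hcl.unit hal hpr
    rw [e2, ZMod.val_zero, Nat.cast_zero, zero_mul, add_zero]
    have e3 : (∑ᶠ u : (ZMod (l * p ^ (1 + 1)))ˣ, PadicInt.toZModPow 2
        ((x₂.1 1).coeff u)) = PadicInt.toZModPow 2 ((p : ℤ_[p]) * z) := by
      rw [← hz]
      exact (AddMonoidHom.map_finsum (PadicInt.toZModPow (p := p) 2).toAddMonoidHom
        (Set.toFinite _)).symm
    rw [e3]
    obtain ⟨m, hm1', -⟩ := cast_pmul (S := S) hpp z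
    exact ⟨m, by rw [hm1', hpπ]⟩
  obtain ⟨e, he1, he2⟩ := hv₂'
  obtain ⟨e', he'⟩ := hx₂'
  apply le_antisymm
  · rw [Ideal.span_le]
    rintro _ ⟨r, hr, rfl⟩
    rw [SetLike.mem_coe, Ideal.mem_span_singleton]
    rcases hr with rfl | hr
    · rw [he2]; exact dvd_mul_right _ _
    · rw [Set.mem_singleton_iff] at hr
      rw [hr, he']; exact dvd_mul_right _ _
  · rw [Ideal.span_le, Set.singleton_subset_iff, SetLike.mem_coe]
    obtain ⟨w, hw⟩ := he1.exists_left_inv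
    have h1 : π = w * ρ v₂ := by rw [he2]; linear_combination (-π) * hw
    rw [h1]
    exact Ideal.mul_mem_left _ _ (Ideal.subset_span ⟨v₂, by simp, rfl⟩)

end Pool.Agent.W97.KE
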