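import Pool.Agent.W97.KE.Stm
import Pool.Agent.W174.KE.Sig
import Pool.Agent.W699.KE.SMOOTH
import Pool.Agent.W563.KE.Mod
import Pool.Agent.W636.KE.NuAb

/-!
The `ℛ_m`-module structure on the Selmer group and its Pontryagin dual, and the conjecture.
-/

set_option autoImplicit false

open scoped Classical

namespace Pool.Agent.W97.KE

open Pool.Agent.W97.MT (ap)

/-- the `ℛ_m`-module `Sel(E/K_{m,∞})`, with the action `smulSel` -/
noncomputable instance selModule (W : WeierstrassCurve ℤ) (p : ℕ) [Fact p.Prime] (m : ℕ)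
    [NeZero m] : Module (Rm p m) (Sel W p m) :=
  have h := Pool.Agent.W563.KE.s_mod Pool.Agent.W174.KE.s_sig W p m (Nat.pos_of_neZero m)
    (Pool.Agent.W699.KE.s_smooth W p m (Fact.out : p.Prime) (Nat.pos_of_neZero m))
  { smul := smulSel W p m
    one_smul := h.2.2.1
    mul_smul := h.2.2.2.1
    smul_add := h.2.2.2.2.1
    add_smul := h.2.2.2.2.2.1
    smul_zero := fun r => by
      have h1 := h.2.2.2.2.1 r 0 0
      rw [add_zero] at h1
      exact left_eq_add.1 h1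
    zero_smul := fun a => by
      have h1 := h.2.2.2.2.2.1 0 0 a
      rw [add_zero] at h1
      exact left_eq_add.1 h1 }

theorem smul_eq (W : WeierstrassCurve ℤ) (p : ℕ) [Fact p.Prime] (m : ℕ) [NeZero m] (r : Rm p m)
    (a : Sel W p m) : r • a = smulSel W p m r a := rfl

/-- `X_m = Sel(E/K_{m,∞})^∨ = Hom(Sel(E/K_{m,∞}), ℚ/ℤ)`, the Pontryagin dual, an `ℛ_m`-module with
`(r f)(a) = f(r a)` (so `(σ_u f)(a) = f(σ_u⁻¹ a)`, see `smulSel`) -/
abbrev X (W : WeierstrassCurve ℤ) (p m : ℕ) : Type := CharacterModule (Sel W p m)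

/-- `ν : ℛ_{m'} → ℛ_m` for `m' ∣ m`, `p ∤ m` -/
noncomputable def nu (p : ℕ) [Fact p.Prime] {m' m : ℕ} [NeZero m] (h : m' ∣ m) (hp : ¬ p ∣ m)
    (x : Rm p m') : Rm p m :=
  ⟨nuFun p h x.1, Pool.Agent.W636.KE.s_nu p m' m h (Nat.pos_of_neZero m) hp x⟩

/-- **The formula of the conjecture** for `(E, p, m)`: the Fitting ideal of the `ℛ_m`-module
`Sel(E/K_{m,∞})^∨` is generated by the elements `ν(ϑ^α_{m',∞})`, `m' ∣ m`. -/
def KuriharaFormula (W : WeierstrassCurve ℤ) (p : ℕ) [Fact p.Prime] (m : ℕ) [NeZero m]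
    (hp : ¬ p ∣ m) : Prop :=
  ∃ (S : Symb W) (α : ℤ_[p]) (ϑ : ∀ m' : ℕ, Rm p m'),
    -- `α` is the unit root
    α ^ 2 - ap W p * α + p = 0 ∧ IsUnit α ∧
    -- `ϑ m' = ϑ^α_{m',∞}`
    (∀ m' : ℕ, m' ∣ m → IsTheta S α m' (ϑ m')) ∧
    IsFitt (Rm p m) (X W p m) (Ideal.span {y | ∃ (m' : ℕ) (h : m' ∣ m), y = nu p h hp (ϑ m')})

theorem Setting.not_dvd {W : WeierstrassCurve ℤ} {p m : ℕ} (h : Setting W p m) : ¬ p ∣ m :=
  fun hd => (h.coprime p h.prime hd).1 rfl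

/-- **Kurihara's conjecture (Q1)**: the formula holds for all `E`, `p`, `m` as in the setting. -/
def KuriharaConjecture : Prop :=
  ∀ (W : WeierstrassCurve ℤ) (p : ℕ) [Fact p.Prime] (m : ℕ) [NeZero m] (h : Setting W p m),
    KuriharaFormula W p m h.not_dvd

end Pool.Agent.W97.KE
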