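import Pool.Agent.W97.V20.Defs

/-!
Definitions for Kurihara's equivariant conjecture on the Fitting ideals of the dual Selmer groups of
an ordinary elliptic curve over the fields `ℚ(μ_{mp^∞})`.
-/

set_option autoImplicit false

open UpperHalfPlane
open scoped Classical

namespace Pool.Agent.W97.KE

open Pool.Agent.W97.MT (prim IsGloballyMinimal affCount ap)
open Pool.Agent.W97.V20 (fE psi E4)

/-- `ℚ̄` -/
abbrev Qb : Type := AlgebraicClosure ℚ

/-- `Gal(ℚ̄/ℚ)` -/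
abbrev GQ : Type := Qb ≃ₐ[ℚ] Qb

/-- `E(F)`, the points of the curve `W` over the field `F` -/
abbrev Pt (W : WeierstrassCurve ℤ) (F : Type) [Field F] : Type := (W.baseChange F).toAffine.Point

/-- the map `E(F) → E(K)` induced by a homomorphism `F → K` of fields -/
noncomputable def mapPt (W : WeierstrassCurve ℤ) {F K : Type} [Field F] [Field K] (f : F →+* K) :
    Pt W F →+ Pt W K :=
  WeierstrassCurve.Affine.Point.map (W' := W) f.toIntAlgHom

/-- the action of `g ∈ Gal(ℚ̄/ℚ)` on `E(ℚ̄)` -/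
noncomputable def act (W : WeierstrassCurve ℤ) (g : GQ) : Pt W Qb →+ Pt W Qb :=
  mapPt W (g : Qb →+* Qb)

section
variable (W : WeierstrassCurve ℤ)

theorem mapPt_comp {F K L : Type} [Field F] [Field K] [Field L] (f : F →+* K) (g : K →+* L)
    (P : Pt W F) : mapPt W g (mapPt W f P) = mapPt W (g.comp f) P := by
  cases P <;> rfl

theorem mapPt_id {F : Type} [Field F] (P : Pt W F) : mapPt W (RingHom.id F) P = P := by
  cases P <;> rfl

theorem act_mul (g h : GQ) (P : Pt W Qb) : act W (g * h) P = act W g (act W h P) := by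
  cases P <;> rfl

theorem act_one (P : Pt W Qb) : act W 1 P = P := by
  cases P <;> rfl

theorem act_inv_act (g : GQ) (P : Pt W Qb) : act W g⁻¹ (act W g P) = P := by
  rw [← act_mul, inv_mul_cancel, act_one]

theorem act_act_inv (g : GQ) (P : Pt W Qb) : act W g (act W g⁻¹ P) = P := by
  rw [← act_mul, mul_inv_cancel, act_one]

end

/-- `Gal(ℚ̄/K_{m,∞})` for `K_{m,∞} = ⋃_n ℚ(μ_{mp^(n+1)})`: the elements of `Gal(ℚ̄/ℚ)` which fix all
`mp^(n+1)`-th roots of unity, for all `n ≥ 0` -/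
def H (p m : ℕ) : Subgroup GQ where
  carrier := {g | ∀ (n : ℕ) (z : Qb), z ^ (m * p ^ (n + 1)) = 1 → g z = z}
  mul_mem' := by
    intro g h hg hh n z hz
    rw [AlgEquiv.mul_apply, hh n z hz, hg n z hz]
  one_mem' := by intro n z _; rfl
  inv_mem' := by
    intro g hg n z hz
    conv_lhs => rw [← hg n z hz]
    exact g.symm_apply_apply z

instance (p m : ℕ) : (H p m).Normal where
  conj_mem := by
    intro g hg h n z hz
    have h1 : (h⁻¹ z) ^ (m * p ^ (n + 1)) = 1 := by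
      rw [← map_pow, hz, map_one]
    rw [AlgEquiv.mul_apply, AlgEquiv.mul_apply, hg n _ h1]
    exact h.apply_symm_apply z

/-- Local triviality of a cocycle `c` of `Gal(ℚ̄/K_{m,∞})` with values in `E(ℚ̄)`, at all the places
of `K_{m,∞}` above the place of `ℚ` with completion `k`; here `Ω` is an algebraic closure of `k`.
The places of `ℚ̄` above it are given by the embeddings `ι : ℚ̄ → Ω`, and for each of them the
decomposition group in `Gal(ℚ̄/K_{m,∞})` consists of the restrictions `g` of automorphisms `τ` of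
`Ω/k`. The condition is that the image of `c` in `H¹((K_{m,∞})_v, E)` vanishes. -/
def LocTriv (W : WeierstrassCurve ℤ) (p m : ℕ) (k Ω : Type) [Field k] [Field Ω] [Algebra k Ω]
    (c : H p m → Pt W Qb) : Prop :=
  ∀ ι : Qb →+* Ω, ∃ P : Pt W Ω, ∀ (g : H p m) (τ : Ω ≃ₐ[k] Ω),
    (∀ x : Qb, ι (g.1 x) = τ (ι x)) → mapPt W ι (c g) = mapPt W (τ : Ω →+* Ω) P - P

/-- `c` is a continuous `1`-cocycle of `Gal(ℚ̄/K_{m,∞})` with values in `E[p^∞]` -/
structure IsCocycle (W : WeierstrassCurve ℤ) (p m : ℕ) (c : H p m → Pt W Qb) : Prop where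
  cont : IsLocallyConstant c
  tors : ∀ g, ∃ k : ℕ, p ^ k • c g = 0
  mul : ∀ g h, c (g * h) = c g + act W g.1 (c h)

/-- `c` satisfies the local conditions of the Selmer group at all places of `K_{m,∞}` -/
structure IsSelmer (W : WeierstrassCurve ℤ) (p m : ℕ) (c : H p m → Pt W Qb) : Prop where
  fin : ∀ (l : ℕ) [Fact l.Prime], LocTriv W p m ℚ_[l] (AlgebraicClosure ℚ_[l]) c
  inf : LocTriv W p m ℝ ℂ c

section
variable {W : WeierstrassCurve ℤ} {p m : ℕ}

theorem LocTriv.add {k Ω : Type} [Field k] [Field Ω] [Algebra k Ω] {c d : H p m → Pt W Qb}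
    (hc : LocTriv W p m k Ω c) (hd : LocTriv W p m k Ω d) : LocTriv W p m k Ω (c + d) := by
  intro ι
  obtain ⟨P, hP⟩ := hc ι
  obtain ⟨Q, hQ⟩ := hd ι
  refine ⟨P + Q, fun g τ h => ?_⟩
  rw [Pi.add_apply, map_add, hP g τ h, hQ g τ h, map_add]
  abel

theorem LocTriv.neg {k Ω : Type} [Field k] [Field Ω] [Algebra k Ω] {c : H p m → Pt W Qb}
    (hc : LocTriv W p m k Ω c) : LocTriv W p m k Ω (-c) := by
  intro ι
  obtain ⟨P, hP⟩ := hc ι
  refine ⟨-P, fun g τ h => ?_⟩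
  rw [Pi.neg_apply, map_neg, hP g τ h, map_neg]
  abel

theorem LocTriv.zero {k Ω : Type} [Field k] [Field Ω] [Algebra k Ω] :
    LocTriv W p m k Ω (0 : H p m → Pt W Qb) := by
  intro ι
  refine ⟨0, fun g τ h => ?_⟩
  rw [Pi.zero_apply, map_zero, map_zero, sub_zero]

theorem IsCocycle.add {c d : H p m → Pt W Qb} (hc : IsCocycle W p m c) (hd : IsCocycle W p m d) :
    IsCocycle W p m (c + d) where
  cont := hc.cont.add hd.cont
  tors g := by
    obtain ⟨k, hk⟩ := hc.tors g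
    obtain ⟨j, hj⟩ := hd.tors g
    refine ⟨k + j, ?_⟩
    rw [Pi.add_apply, smul_add, pow_add, mul_smul, mul_smul, hj, smul_comm, hk]
    simp
  mul g h := by
    rw [Pi.add_apply, Pi.add_apply, Pi.add_apply, hc.mul, hd.mul, map_add]
    abel

theorem IsCocycle.neg {c : H p m → Pt W Qb} (hc : IsCocycle W p m c) : IsCocycle W p m (-c) where
  cont := hc.cont.neg
  tors g := by
    obtain ⟨k, hk⟩ := hc.tors g
    exact ⟨k, by rw [Pi.neg_apply, smul_neg, hk, neg_zero]⟩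
  mul g h := by
    rw [Pi.neg_apply, Pi.neg_apply, Pi.neg_apply, hc.mul, map_neg]
    abel

theorem IsCocycle.zero : IsCocycle W p m (0 : H p m → Pt W Qb) where
  cont := IsLocallyConstant.const 0
  tors g := ⟨0, by simp⟩
  mul g h := by simp

end

/-- the group of continuous cocycles with values in `E[p^∞]` satisfying the Selmer conditions -/
noncomputable def ZSel (W : WeierstrassCurve ℤ) (p m : ℕ) : AddSubgroup (H p m → Pt W Qb) where
  carrier := {c | IsCocycle W p m c ∧ IsSelmer W p m c}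
  add_mem' := fun ha hb =>
    ⟨ha.1.add hb.1, ⟨fun l _ => (ha.2.fin l).add (hb.2.fin l), ha.2.inf.add hb.2.inf⟩⟩
  zero_mem' := ⟨IsCocycle.zero, ⟨fun _ _ => LocTriv.zero, LocTriv.zero⟩⟩
  neg_mem' := fun ha => ⟨ha.1.neg, ⟨fun l _ => (ha.2.fin l).neg, ha.2.inf.neg⟩⟩

/-- the coboundaries `g ↦ gP - P` with `P ∈ E[p^∞]` -/
noncomputable def BSel (W : WeierstrassCurve ℤ) (p m : ℕ) : AddSubgroup (H p m → Pt W Qb) where
  carrier := {c | ∃ P : Pt W Qb, (∃ k : ℕ, p ^ k • P = 0) ∧ ∀ g, c g = act W g.1 P - P}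
  add_mem' := by
    rintro c d ⟨P, ⟨k, hk⟩, hP⟩ ⟨Q, ⟨j, hj⟩, hQ⟩
    refine ⟨P + Q, ⟨k + j, ?_⟩, fun g => ?_⟩
    · rw [smul_add, pow_add, mul_smul, mul_smul, hj, smul_comm, hk]
      simp
    · rw [Pi.add_apply, hP, hQ, map_add]
      abel
  zero_mem' := ⟨0, ⟨0, by simp⟩, fun g => by simp⟩
  neg_mem' := by
    rintro c ⟨P, ⟨k, hk⟩, hP⟩
    refine ⟨-P, ⟨k, by rw [smul_neg, hk, neg_zero]⟩, fun g => ?_⟩
    rw [Pi.neg_apply, hP, map_neg]
    abel

/-- **The Selmer group** `Sel(E/K_{m,∞})` (`p^∞`-Selmer group) -/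
abbrev Sel (W : WeierstrassCurve ℤ) (p m : ℕ) : Type :=
  ZSel W p m ⧸ (BSel W p m).addSubgroupOf (ZSel W p m)

/-- the action of `h ∈ Gal(ℚ̄/ℚ)` on cochains: `(h·c)(g) = h c(h⁻¹ g h)` -/
noncomputable def cact (W : WeierstrassCurve ℤ) (p m : ℕ) (h : GQ) :
    (H p m → Pt W Qb) →+ (H p m → Pt W Qb) where
  toFun c g := act W h (c ⟨h⁻¹ * g.1 * h, by
    simpa using (inferInstance : (H p m).Normal).conj_mem g.1 g.2 h⁻¹⟩)
  map_zero' := by funext g; simp
  map_add' c d := by funext g; simp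

section
variable (W : WeierstrassCurve ℤ) (p m : ℕ)

theorem cact_apply (h : GQ) (c : H p m → Pt W Qb) (g g' : H p m) (hg : g'.1 = h⁻¹ * g.1 * h) :
    cact W p m h c g = act W h (c g') := by
  have : g' = ⟨h⁻¹ * g.1 * h, by
    simpa using (inferInstance : (H p m).Normal).conj_mem g.1 g.2 h⁻¹⟩ := Subtype.ext hg
  rw [this]; rfl

theorem cact_one (c : H p m → Pt W Qb) : cact W p m 1 c = c := by
  funext g
  rw [cact_apply W p m 1 c g g (by simp), act_one]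

theorem cact_mul (h h' : GQ) (c : H p m → Pt W Qb) :
    cact W p m (h * h') c = cact W p m h (cact W p m h' c) := by
  funext g
  have n1 : (h⁻¹ * g.1 * h) ∈ H p m := by
    simpa using (inferInstance : (H p m).Normal).conj_mem g.1 g.2 h⁻¹
  have n2 : (h'⁻¹ * (h⁻¹ * g.1 * h) * h') ∈ H p m := by
    simpa using (inferInstance : (H p m).Normal).conj_mem _ n1 h'⁻¹
  rw [cact_apply W p m (h * h') c g ⟨_, n2⟩ (by simp [mul_assoc]),
    cact_apply W p m h _ g ⟨_, n1⟩ rfl, cact_apply W p m h' c ⟨_, n1⟩ ⟨_, n2⟩ rfl, act_mul]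

theorem cact_isCocycle (h : GQ) {c : H p m → Pt W Qb} (hc : IsCocycle W p m c) :
    IsCocycle W p m (cact W p m h c) where
  cont := by
    have hcont : Continuous fun g : H p m => (⟨h⁻¹ * g.1 * h, by
      simpa using (inferInstance : (H p m).Normal).conj_mem g.1 g.2 h⁻¹⟩ : H p m) := by
      refine Continuous.subtype_mk ?_ _
      exact (continuous_const.mul continuous_subtype_val).mul continuous_const
    exact (hc.cont.comp_continuous hcont).comp (act W h)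
  tors g := by
    have n1 : (h⁻¹ * g.1 * h) ∈ H p m := by
      simpa using (inferInstance : (H p m).Normal).conj_mem g.1 g.2 h⁻¹
    obtain ⟨k, hk⟩ := hc.tors ⟨_, n1⟩
    refine ⟨k, ?_⟩
    rw [cact_apply W p m h c g ⟨_, n1⟩ rfl, ← map_nsmul, hk, map_zero]
  mul g g' := by
    have n1 : (h⁻¹ * g.1 * h) ∈ H p m := by
      simpa using (inferInstance : (H p m).Normal).conj_mem g.1 g.2 h⁻¹
    have n2 : (h⁻¹ * g'.1 * h) ∈ H p m := by
      simpa using (inferInstance : (H p m).Normal).conj_mem g'.1 g'.2 h⁻¹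
    rw [cact_apply W p m h c (g * g') (⟨_, n1⟩ * ⟨_, n2⟩) (by simp [mul_assoc]),
      cact_apply W p m h c g ⟨_, n1⟩ rfl, cact_apply W p m h c g' ⟨_, n2⟩ rfl, hc.mul, map_add,
      ← act_mul, ← act_mul]
    simp [mul_assoc]

theorem cact_locTriv (h : GQ) {k Ω : Type} [Field k] [Field Ω] [Algebra k Ω]
    {c : H p m → Pt W Qb} (hc : LocTriv W p m k Ω c) : LocTriv W p m k Ω (cact W p m h c) := by
  intro ι
  obtain ⟨P, hP⟩ := hc (ι.comp (h : Qb →+* Qb))
  refine ⟨P, fun g τ hg => ?_⟩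
  have n1 : (h⁻¹ * g.1 * h) ∈ H p m := by
    simpa using (inferInstance : (H p m).Normal).conj_mem g.1 g.2 h⁻¹
  rw [cact_apply W p m h c g ⟨_, n1⟩ rfl, ← hP ⟨_, n1⟩ τ]
  · exact mapPt_comp W _ _ _
  · intro x
    have h1 : h ((h⁻¹ * g.1 * h) x) = g.1 (h x) := by
      rw [AlgEquiv.mul_apply, AlgEquiv.mul_apply]
      exact h.apply_symm_apply _
    change ι (h ((h⁻¹ * g.1 * h) x)) = τ (ι (h x))
    rw [h1, hg]

theorem cact_mem_ZSel (h : GQ) {c : H p m → Pt W Qb} (hc : c ∈ ZSel W p m) :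
    cact W p m h c ∈ ZSel W p m :=
  ⟨cact_isCocycle W p m h hc.1, ⟨fun l _ => cact_locTriv W p m h (hc.2.fin l),
    cact_locTriv W p m h hc.2.inf⟩⟩

theorem cact_mem_BSel (h : GQ) {c : H p m → Pt W Qb} (hc : c ∈ BSel W p m) :
    cact W p m h c ∈ BSel W p m := by
  obtain ⟨P, ⟨k, hk⟩, hP⟩ := hc
  refine ⟨act W h P, ⟨k, by rw [← map_nsmul, hk, map_zero]⟩, fun g => ?_⟩
  have n1 : (h⁻¹ * g.1 * h) ∈ H p m := by
    simpa using (inferInstance : (H p m).Normal).conj_mem g.1 g.2 h⁻¹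
  rw [cact_apply W p m h c g ⟨_, n1⟩ rfl, hP, map_sub, ← act_mul, ← act_mul]
  simp [mul_assoc]

end

/-- the action of `Gal(ℚ̄/ℚ)` on the Selmer group -/
noncomputable def selAct (W : WeierstrassCurve ℤ) (p m : ℕ) (h : GQ) : Sel W p m →+ Sel W p m :=
  QuotientAddGroup.map _ _
    (((cact W p m h).comp (ZSel W p m).subtype).codRestrict (ZSel W p m)
      fun c => cact_mem_ZSel W p m h c.2)
    (by
      intro c hc
      rw [AddSubgroup.mem_comap, AddSubgroup.mem_addSubgroupOf]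
      exact cact_mem_BSel W p m h (AddSubgroup.mem_addSubgroupOf.1 hc))

/-- `h` acts on the `N`-th roots of unity by `z ↦ z^u` -/
def IsSig (N : ℕ) (u : (ZMod N)ˣ) (h : GQ) : Prop :=
  ∀ z : Qb, z ^ N = 1 → h z = z ^ (u : ZMod N).val

/-- an element of `Gal(ℚ̄/ℚ)` whose restriction to `ℚ(μ_N)` is `σ_u` -/
noncomputable def sig (N : ℕ) (u : (ZMod N)ˣ) : GQ := Classical.epsilon (IsSig N u)

/-! ### The ring `ℛ_m` -/

/-- `R_{m,n} = ℤ_p[Gal(K_{m,n}/ℚ)]` with `Gal(K_{m,n}/ℚ) = (ℤ/mp^(n+1))ˣ`, `σ_u ↔ u` -/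
abbrev Rn (p : ℕ) [Fact p.Prime] (m n : ℕ) : Type :=
  MonoidAlgebra ℤ_[p] (ZMod (m * p ^ (n + 1)))ˣ

/-- the projection `R_{m,n+1} → R_{m,n}` -/
noncomputable def projn (p : ℕ) [Fact p.Prime] (m n : ℕ) : Rn p m (n + 1) →+* Rn p m n :=
  MonoidAlgebra.mapDomainRingHom ℤ_[p] (ZMod.unitsMap
    (Nat.mul_dvd_mul_left m (pow_dvd_pow p (Nat.le_succ (n + 1)))))

/-- `ℛ_m = lim R_{m,n} = ℤ_p[[Gal(K_{m,∞}/ℚ)]]` -/
noncomputable def Rm (p : ℕ) [Fact p.Prime] (m : ℕ) : Subring (∀ n, Rn p m n) where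
  carrier := {x | ∀ n, projn p m n (x (n + 1)) = x n}
  mul_mem' := fun ha hb n => by rw [Pi.mul_apply, map_mul, ha n, hb n, Pi.mul_apply]
  one_mem' := fun n => by rw [Pi.one_apply, map_one, Pi.one_apply]
  add_mem' := fun ha hb n => by rw [Pi.add_apply, map_add, ha n, hb n, Pi.add_apply]
  zero_mem' := fun n => by rw [Pi.zero_apply, map_zero, Pi.zero_apply]
  neg_mem' := fun ha n => by rw [Pi.neg_apply, map_neg, ha n, Pi.neg_apply]

/-- the class `a` is fixed by `Gal(ℚ̄/K_{m,n})` -/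
def FixedBy (W : WeierstrassCurve ℤ) (p m : ℕ) (a : Sel W p m) (n : ℕ) : Prop :=
  ∀ h : GQ, (∀ z : Qb, z ^ (m * p ^ (n + 1)) = 1 → h z = z) → selAct W p m h a = a

/-- The action of `r ∈ ℛ_m` on `Sel(E/K_{m,∞})` for which `σ_u` acts as `σ_u⁻¹` (so that `σ_u` acts
on the Pontryagin dual by `(σ_u f)(a) = f(σ_u⁻¹ a)`): if `a` is fixed by `Gal(ℚ̄/K_{m,n})` and
`p^k a = 0`, and `r` has the component `∑_u r_u σ_u` in `R_{m,n}`, then
`r · a = ∑_u (r_u mod p^k) σ_u⁻¹ a`. -/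
noncomputable def smulSel (W : WeierstrassCurve ℤ) (p : ℕ) [Fact p.Prime] (m : ℕ) (r : Rm p m)
    (a : Sel W p m) : Sel W p m :=
  let n := Classical.epsilon (FixedBy W p m a)
  let k := Classical.epsilon (fun k : ℕ => p ^ k • a = 0)
  ∑ᶠ u : (ZMod (m * p ^ (n + 1)))ˣ,
    (((r.1 n).coeff u : ℤ_[p]).appr k) • selAct W p m (sig (m * p ^ (n + 1)) u)⁻¹ a

/-! ### Modular symbols and the elements `ϑ` -/

/-- the real period `Ω⁺ = 2 ∫ dx/√ψ(x)` over the half-line to the right of the largest real root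
of `ψ(x) = 4x³ + b_2 x² + 2 b_4 x + b_6 = (2y + a_1 x + a_3)²` (the least positive real period of
the Néron differential `dx/(2y + a_1 x + a_3)` of a minimal equation) -/
noncomputable def Omp (W : WeierstrassCurve ℤ) : ℝ :=
  2 * ∫ x in {x : ℝ | ∀ t, x ≤ t → 0 < psi W t}, (Real.sqrt (psi W x))⁻¹

/-- `Ω⁻ / i`, where `Ω⁻ = 2i ∫ dx/√(-ψ(x))` over the half-line to the left of the smallest real root
of `ψ` (the least period of the Néron differential on the positive imaginary half-axis) -/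
noncomputable def Omm (W : WeierstrassCurve ℤ) : ℝ :=
  2 * ∫ x in {x : ℝ | ∀ t, t ≤ x → psi W t < 0}, (Real.sqrt (-psi W x))⁻¹

/-- the modular symbols `[r]^±`: `2π ∫_0^∞ f_E(r + iy) dy = [r]⁺ Ω⁺ + [r]⁻ Ω⁻` -/
structure Symb (W : WeierstrassCurve ℤ) where
  plus : ℚ → ℚ
  minus : ℚ → ℚ
  eq : ∀ r : ℚ, prim (fE W) (r : ℂ) = plus r * (Omp W : ℂ) + minus r * (Complex.I * (Omm W : ℂ))

/-- the coefficient of `σ_u` in `θ_M = ∑_a ([a/M]⁺ + [a/M]⁻) σ_a⁻¹` -/
noncomputable def theta {W : WeierstrassCurve ℤ} (S : Symb W) (M : ℕ) (u : (ZMod M)ˣ) : ℚ :=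
  S.plus (((u⁻¹ : (ZMod M)ˣ) : ZMod M).val / M) + S.minus (((u⁻¹ : (ZMod M)ˣ) : ZMod M).val / M)

/-- `x = ϑ^α_{m,∞}`: for all `n ≥ 0` the component of `x` in `R_{m,n}` is
`α^(-(n+1)) (θ_{mp^(n+1)} - α⁻¹ ν(θ_{mp^n}))`; the coefficient of `σ_u` in `ν(y)` is the coefficient
in `y` of the image of `σ_u`. -/
def IsTheta {W : WeierstrassCurve ℤ} (S : Symb W) {p : ℕ} [Fact p.Prime] (α : ℤ_[p]) (m : ℕ)
    (x : Rm p m) : Prop :=
  ∀ (n : ℕ) (u : (ZMod (m * p ^ (n + 1)))ˣ), (((x.1 n).coeff u : ℤ_[p]) : ℚ_[p]) =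
    ((α : ℚ_[p]) ^ (n + 1))⁻¹ * ((theta S (m * p ^ (n + 1)) u : ℚ) -
      (α : ℚ_[p])⁻¹ * (theta S (m * p ^ n) (ZMod.unitsMap
        (Nat.mul_dvd_mul_left m (pow_dvd_pow p (Nat.le_succ n))) u) : ℚ))

/-- the map `ν : R_{m',n} → R_{m,n}` for `m' ∣ m`, for all `n`: it sends `σ` to the sum of all
elements of `Gal(K_{m,n}/ℚ)` with restriction `σ` -/
noncomputable def nuFun (p : ℕ) [Fact p.Prime] {m' m : ℕ} (h : m' ∣ m) (x : ∀ n, Rn p m' n)
    (n : ℕ) : Rn p m n :=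
  ∑ᶠ u : (ZMod (m * p ^ (n + 1)))ˣ,
    MonoidAlgebra.single u ((x n).coeff (ZMod.unitsMap (Nat.mul_dvd_mul_right h (p ^ (n + 1))) u))

/-- `I` is the (initial) Fitting ideal of the finitely generated module `M`: it is generated by the
determinants of the square matrices whose rows are relations between given generators. -/
def IsFitt (R M : Type) [CommRing R] [AddCommGroup M] [Module R M] (I : Ideal R) : Prop :=
  ∃ (n : ℕ) (φ : (Fin n → R) →ₗ[R] M), Function.Surjective φ ∧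
    I = Ideal.span {d : R | ∃ A : Matrix (Fin n) (Fin n) R, (∀ i, φ (A i) = 0) ∧ d = A.det}

/-- `E[p]` is irreducible as a module over `Gal(ℚ̄/ℚ)` -/
def IrredTors (W : WeierstrassCurve ℤ) (p : ℕ) : Prop :=
  ∀ V : AddSubgroup (Pt W Qb), (∀ P ∈ V, p • P = 0) → (∀ (g : GQ), ∀ P ∈ V, act W g P ∈ V) →
    V = ⊥ ∨ ∀ P : Pt W Qb, p • P = 0 → P ∈ V

/-- the assumptions on `(E, p, m)` -/
structure Setting (W : WeierstrassCurve ℤ) (p m : ℕ) : Prop where
  /-- `W` is a global minimal equation of `E` -/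
  minimal : IsGloballyMinimal W
  prime : p.Prime
  odd : p ≠ 2
  /-- good ordinary reduction at `p` -/
  good : ¬ (p : ℤ) ∣ W.Δ
  ordinary : ¬ (p : ℤ) ∣ ap W p
  irred : IrredTors W p
  /-- `E(𝔽_p)[p] = 0` -/
  tors : ¬ p ∣ affCount W p + 1
  pos : 1 ≤ m
  /-- `m` is prime to `pN` -/
  coprime : ∀ q : ℕ, q.Prime → q ∣ m → q ≠ p ∧ ¬ (q : ℤ) ∣ W.Δ

end Pool.Agent.W97.KE
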