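import Pool.Agent.W97.KE.Conj
import Pool.Agent.W97.KE.Asm2
import Pool.Agent.W97.KE.Ana
import Pool.Agent.W912.KE.GRP
import Pool.Agent.W347.KE.Alg
import Pool.Agent.W349.KE.FITT
import Pool.Agent.W349.KE.IRT
import Pool.Agent.W778.KE.DUAL
import Pool.Agent.W778.KE.EXT
import Pool.Agent.W138.KE.Real
import Pool.Agent.W509.KE.LAM
import Pool.Agent.W509.KE.IRR
import Pool.Agent.W822.KE.LOCRES
import Pool.Agent.W15.KE.BEZINF
import Pool.Agent.W318.KE.Place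
import Pool.Agent.W202.KE.Roots
import Pool.Agent.W89.KE.Expo
import Pool.Agent.W800.KE.Fbar
import Pool.Agent.W800.KE.Locl
import Pool.Agent.W28.KE.LTOR
import Pool.Agent.W428.KE.Frob
import Pool.Agent.W398.KE.Gen
import Pool.Agent.W935.KE.PSI
import Pool.Agent.W999.KE.RENUM
import Pool.Agent.W946.KE.SplitTor
import Pool.Agent.W400.KE.Proj
import Pool.Agent.W382.KE.Aug
import Pool.Agent.W368.KE.OMP

/-!
Assembly.
-/

set_option autoImplicit false

open scoped Classical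

namespace Pool.Agent.W97.KE

open Pool.Agent.W97.MT (prim IsGloballyMinimal affCount ap)
open Pool.Agent.W97.V20 (E4)

lemma hnum : S_NUM := Pool.Agent.W999.KE.s_num

instance l_prime : Fact (Nat.Prime 98911) := ⟨hnum.2.2.2.2.1⟩
instance p_prime : Fact (Nat.Prime 7) := ⟨by norm_num⟩

lemma hana : S_ANA := s_ana Pool.Agent.W368.KE.s_omp.2.1 Pool.Agent.W368.KE.s_omp.2.2
lemma hpsi : S_PSI := Pool.Agent.W935.KE.s_psi
lemma hirt : IrredTors E4 7 ∧ ∀ m : ℕ, 1 ≤ m → NoTors E4 7 m :=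
  Pool.Agent.W349.KE.s_irt hpsi Pool.Agent.W509.KE.s_irr Pool.Agent.W999.KE.s_re
lemma htor : (∀ P : Pt E4 (AlgebraicClosure (ZMod 98911)), 7 • P = 0 →
    mapPt E4 (frobenius (AlgebraicClosure (ZMod 98911)) 98911) P = P) ∧
    7 ∣ affCount E4 98911 + 1 :=
  ⟨(Pool.Agent.W946.KE.s_tor hpsi Pool.Agent.W946.KE.s_split).1,
    (Pool.Agent.W946.KE.s_tor hpsi Pool.Agent.W946.KE.s_split).2⟩

/-- the assumptions on `(E, 7, m)` -/
theorem setting (m : ℕ) (hm : 1 ≤ m)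
    (h : ∀ q : ℕ, q.Prime → q ∣ m → q ≠ 7 ∧ q ≠ 2 ∧ q ≠ 5) : Setting E4 7 m where
  minimal := hnum.1
  prime := p_prime.out
  odd := by norm_num
  good := by rw [hnum.2.1]; norm_num
  ordinary := by rw [hnum.2.2.1]; norm_num
  irred := hirt.1
  tors := by rw [hnum.2.2.2.1]; norm_num
  pos := hm
  coprime := by
    intro q hq hd
    obtain ⟨h1, h2, h3⟩ := h q hq hd
    refine ⟨h1, fun h4 => ?_⟩
    rcases (dvd_disc4 hq).1 h4 with h5 | h5
    · exact h2 h5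
    · exact h3 h5

theorem setting_one : Setting E4 7 1 :=
  setting 1 le_rfl (fun q hq hd => absurd (Nat.dvd_one.1 hd) hq.one_lt.ne')

theorem setting_l : Setting E4 7 98911 := by
  refine setting 98911 (by norm_num) fun q hq hd => ?_
  have h := (Nat.prime_dvd_prime_iff_eq hq l_prime.out).1 hd
  subst h
  norm_num

theorem nuFun_self (p : ℕ) [Fact p.Prime] {m : ℕ} [NeZero m] (h : m ∣ m) (x : ∀ n, Rn p m n) :
    nuFun p h x = x := by
  funext n
  have h0 : ∀ u : (ZMod (m * p ^ (n + 1)))ˣ, ((nuFun p h x) n).coeff u = (x n).coeff u := by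
    intro u
    rw [Pool.Agent.W636.KE.coeff_nu p h (Nat.pos_of_neZero m)]
    congr 1
    rw [show Nat.mul_dvd_mul_right h (p ^ (n + 1)) = dvd_refl _ from rfl, ZMod.unitsMap_self]
    rfl
  ext u
  exact h0 u

theorem nu_self (p : ℕ) [Fact p.Prime] {m : ℕ} [NeZero m] (h : m ∣ m) (hp : ¬ p ∣ m)
    (x : Rm p m) : nu p h hp x = x :=
  Subtype.ext (nuFun_self p h x.1)

theorem main (hred : S_RED) : ¬ (KuriharaFormula E4 7 1 setting_one.not_dvd ∧
    KuriharaFormula E4 7 98911 setting_l.not_dvd) := by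
  rintro ⟨⟨S₁, α₁, ϑ₁, hα₁, hu₁, hϑ₁, hF₁⟩, ⟨S₂, α₂, ϑ₂, hα₂, hu₂, hϑ₂, hF₂⟩⟩
  obtain ⟨hm1, hp1, hv1, hper1, hh1⟩ := hana S₁
  obtain ⟨hm2, hp2, hv2, hper2, hh2⟩ := hana S₂
  have htorl := Pool.Agent.W28.KE.s_ltor Pool.Agent.W318.KE.s_place hred
    Pool.Agent.W800.KE.s_fbar 7 98911 (by norm_num) (by norm_num) (by norm_num) (by norm_num)
    (by norm_num) htor.1
  have hal : ((7 : ℕ) : ℤ) ∣ ap E4 98911 - 2 := by
    obtain ⟨t, ht⟩ := htor.2
    unfold ap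
    have h1 : ((affCount E4 98911 + 1 : ℕ) : ℤ) = ((7 * t : ℕ) : ℤ) := by rw [ht]
    refine ⟨t * (-1) + 14130, ?_⟩
    push_cast at h1 ⊢
    linarith
  have hap : ¬ ((7 : ℕ) : ℤ) ∣ ap E4 7 - 1 := by rw [hnum.2.2.1]; norm_num
  refine final Pool.Agent.W174.KE.s_sig Pool.Agent.W699.KE.s_smooth Pool.Agent.W699.KE.s_inner
    Pool.Agent.W398.KE.s_gen Pool.Agent.W509.KE.s_lam Pool.Agent.W778.KE.s_ext
    Pool.Agent.W778.KE.s_inj Pool.Agent.W822.KE.s_locres Pool.Agent.W15.KE.s_bez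
    Pool.Agent.W15.KE.s_inf (Pool.Agent.W202.KE.s_roots Pool.Agent.W318.KE.s_place)
    Pool.Agent.W89.KE.s_expo Pool.Agent.W800.KE.s_locl Pool.Agent.W563.KE.s_mod
    Pool.Agent.W912.KE.s_grp Pool.Agent.W347.KE.s_alg Pool.Agent.W349.KE.s_fitt
    Pool.Agent.W778.KE.s_dual Pool.Agent.W138.KE.s_real Pool.Agent.W428.KE.s_frob
    Pool.Agent.W636.KE.s_ab Pool.Agent.W400.KE.s_proj Pool.Agent.W382.KE.s_aug
    E4 7 98911 (by norm_num) (by norm_num) (by norm_num) (by norm_num) hnum.2.2.2.2.2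
    (hirt.2 98911 (by norm_num)) htorl.1 htorl.2 hal hap
    (fun r a => rfl) (fun r a => rfl)
    S₁ hper1 (fun r => hh1 7 (by norm_num) (by norm_num) (by norm_num) r)
    (by rw [hm1, add_zero]; exact hp1) (by rw [hm1, add_zero]; exact hv1)
    α₁ hα₁ hu₁ (ϑ₁ 1) (hϑ₁ 1 (dvd_refl 1)) _ ?_ hF₁
    S₂ hper2 (fun r => hh2 7 (by norm_num) (by norm_num) (by norm_num) r)
    (fun r => hh2 98911 l_prime.out (by norm_num) (by norm_num) r)
    (by rw [hm2, add_zero]; exact hp2) (by rw [hm2, add_zero]; exact hv2)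
    α₂ hα₂ hu₂ (ϑ₂ 1) (hϑ₂ 1 (one_dvd _)) (ϑ₂ 98911) (hϑ₂ 98911 (dvd_refl _))
    (nu 7 (one_dvd 98911) setting_l.not_dvd (ϑ₂ 1)) rfl _ ?_ hF₂
  · refine Ideal.subset_span ⟨1, dvd_refl 1, ?_⟩
    exact (nu_self 7 (dvd_refl 1) setting_one.not_dvd (ϑ₁ 1)).symm
  · congr 1
    ext y
    constructor
    · rintro ⟨m', h, rfl⟩
      rcases (Nat.dvd_prime l_prime.out).1 h with h1 | h1
      · subst h1
        left
        rfl
      · subst h1
        right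
        exact nu_self 7 h setting_l.not_dvd (ϑ₂ 98911)
    · rintro (h | h)
      · exact ⟨1, one_dvd _, h⟩
      · rw [Set.mem_singleton_iff] at h
        refine ⟨98911, dvd_refl _, ?_⟩
        rw [h]
        exact (nu_self 7 (dvd_refl _) setting_l.not_dvd (ϑ₂ 98911)).symm

end Pool.Agent.W97.KE
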